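import Pool.Agent.Work.MP_4336d9_an.Norms

/-! The estimates for flat vectors. -/

open Finset Filter Topology
open scoped ENNReal

namespace Pool.Agent.Work.MP_4336d9_an

variable {𝕜 : Type*} [RCLike 𝕜]

lemma coord_le_norm {D : ℕ} (a : EuclideanSpace 𝕜 (Fin D)) (i : Fin D) : ‖a i‖ ≤ ‖a‖ :=
  PiLp.norm_apply_le a i

lemma card_le_norm_sq {D : ℕ} (a : EuclideanSpace 𝕜 (Fin D)) (σ : Finset (Fin D))
    (h : ∀ i ∈ σ, ‖a i‖ = 1) : (σ.card : ℝ) ≤ ‖a‖ ^ 2 := by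
  rw [EuclideanSpace.norm_sq_eq]
  calc (σ.card : ℝ) = ∑ i ∈ σ, ‖a i‖ ^ 2 := by
        rw [Finset.sum_congr rfl (g := fun _ => (1 : ℝ)) (fun i hi => by rw [h i hi, one_pow])]
        simp
    _ ≤ ∑ i, ‖a i‖ ^ 2 :=
        Finset.sum_le_sum_of_subset_of_nonneg (Finset.subset_univ _) fun _ _ _ => by positivity

/-- The moment estimate for a vector with coordinates bounded by one. -/
lemma Mom_le_flat {u : ℝ} (hu : 2 ≤ u) {r D : ℕ} (hr : 0 < r) (a : Fin D → 𝕜) {A : ℝ}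
    (hA : 0 < A) (hAa : ∑ i, ‖a i‖ ^ 2 = A ^ 2) (h1 : ∀ i, ‖a i‖ ≤ 1) :
    Mom u r D a ≤ Ku u * A ^ 2 * (max (A / √(r : ℝ)) (min 1 A)) ^ (u - 2) := by
  have hr' : (0 : ℝ) < r := by exact_mod_cast hr
  rw [← hAa]
  refine Mom_le_of_max hu hr a (lt_max_of_lt_right (by positivity)) (fun i => ?_) ?_
  · refine le_max_of_le_right (le_min (h1 i) ?_)
    have h2 : ‖a i‖ ^ 2 ≤ A ^ 2 := by
      rw [← hAa]
      exact Finset.single_le_sum (f := fun i => ‖a i‖ ^ 2) (fun _ _ => by positivity)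
        (Finset.mem_univ i)
    exact (pow_le_pow_iff_left₀ (norm_nonneg _) hA.le (by norm_num)).1 h2
  · rw [hAa]
    have h2 : A ^ 2 / r = (A / √(r : ℝ)) ^ 2 := by
      rw [div_pow, Real.sq_sqrt hr'.le]
    rw [h2]
    have : A / √(r : ℝ) ≤ max (A / √(r : ℝ)) (min 1 A) := le_max_left _ _
    gcongr

lemma tendsto_aux {c : ℝ} (hc : 0 < c) (B : ℝ) {δ : ℝ} (hδ : 0 < δ) :
    ∃ j₀ : ℕ, ∀ j, j₀ ≤ j → B * ((j + 1 : ℕ) : ℝ) ^ (-c) ≤ δ := by
  have h1 : Tendsto (fun j : ℕ => B * ((j + 1 : ℕ) : ℝ) ^ (-c)) atTop (𝓝 (B * 0)) :=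
    (((tendsto_rpow_neg_atTop hc).comp tendsto_natCast_atTop_atTop).comp
      (tendsto_add_atTop_nat 1)).const_mul B
  rw [mul_zero] at h1
  exact eventually_atTop.1 (h1.eventually_le_const hδ)

section caseI

variable (P Q : ℝ≥0∞) [hP1 : Fact (1 ≤ P)] [hQ1 : Fact (1 ≤ Q)]

lemma norm_PP_le_caseI (hP : 1 < P) (hPt : P ≠ ⊤) (hp : 2 ≤ P.toReal) {D : ℕ}
    (x : PiLp P (fun _ : Om 1 D => 𝕜)) : ‖PP P 1 D x‖ ≤ ‖x‖ := by
  have h1 := norm_PP_le_of_two_le P hP hPt hp one_pos x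
  rwa [Nat.cast_one, Real.one_rpow, one_mul] at h1

lemma H1_caseI (hP : 1 < P) (hPt : P ≠ ⊤) (hQt : Q ≠ ⊤) (hp : 2 ≤ P.toReal)
    (hpq : P.toReal < Q.toReal) {δ : ℝ} (hδ : 0 < δ) :
    ∃ j₀ : ℕ, ∀ j, j₀ ≤ j → ∀ (D : ℕ) (x : PiLp P (fun _ : Om 1 D => 𝕜)),
      (∀ i, ‖PP P 1 D x i‖ ≤ 1) → ‖JJ Q (j + 1) D (PP P 1 D x)‖ ^ Q.toReal
        ≤ δ * ‖x‖ ^ Q.toReal + Ku Q.toReal * ‖x‖ ^ P.toReal := by
  have hq : 2 < Q.toReal := by linarith
  have hq0 : 0 < Q.toReal := by linarith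
  have hK := Ku_pos Q.toReal
  obtain ⟨j₀, hj₀⟩ := tendsto_aux (c := (Q.toReal - 2) / 2) (by linarith) (Ku Q.toReal) hδ
  refine ⟨j₀, fun j hj D x hx => ?_⟩
  set a := PP P 1 D x with ha
  have hAx : ‖a‖ ≤ ‖x‖ := norm_PP_le_caseI P hP hPt hp x
  rcases (norm_nonneg a).eq_or_lt with h0 | hA
  · have : a = 0 := by rwa [eq_comm, norm_eq_zero] at h0
    rw [this, map_zero, norm_zero, Real.zero_rpow hq0.ne']
    positivity
  rw [norm_JJ_rpow Q hQt]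
  have hr' : (0 : ℝ) < ((j + 1 : ℕ) : ℝ) := by positivity
  refine (Mom_le_flat hq.le (Nat.succ_pos j) (fun i => a i) hA
    (EuclideanSpace.norm_sq_eq a).symm hx).trans ?_
  set A := ‖a‖ with hAdef
  have h1 : (max (A / √(((j + 1 : ℕ) : ℝ))) (min 1 A)) ^ (Q.toReal - 2)
      ≤ (A / √(((j + 1 : ℕ) : ℝ))) ^ (Q.toReal - 2) + (min 1 A) ^ (Q.toReal - 2) := by
    rcases max_choice (A / √(((j + 1 : ℕ) : ℝ))) (min 1 A) with h | h <;> rw [h]
    · have : 0 ≤ (min 1 A) ^ (Q.toReal - 2) := by positivity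
      linarith
    · have : 0 ≤ (A / √(((j + 1 : ℕ) : ℝ))) ^ (Q.toReal - 2) := by positivity
      linarith
  have h2 : A ^ 2 * (A / √(((j + 1 : ℕ) : ℝ))) ^ (Q.toReal - 2)
      = ((j + 1 : ℕ) : ℝ) ^ (-((Q.toReal - 2) / 2)) * A ^ Q.toReal := by
    rw [Real.div_rpow hA.le (Real.sqrt_nonneg _), Real.sqrt_eq_rpow, ← Real.rpow_mul hr'.le]
    have h3 : A ^ Q.toReal = A ^ 2 * A ^ (Q.toReal - 2) := by
      rw [← Real.rpow_natCast A 2, ← Real.rpow_add hA]; norm_num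
    rw [h3, Real.rpow_neg hr'.le]
    have h4 : 1 / 2 * (Q.toReal - 2) = (Q.toReal - 2) / 2 := by ring
    rw [h4]
    field_simp
  have h5 : A ^ 2 * (min 1 A) ^ (Q.toReal - 2) ≤ A ^ P.toReal := by
    rcases le_total 1 A with h | h
    · rw [min_eq_left h, Real.one_rpow, mul_one, ← Real.rpow_natCast A 2]
      exact Real.rpow_le_rpow_of_exponent_le h (by push_cast; exact hp)
    · rw [min_eq_right h, ← Real.rpow_natCast A 2, ← Real.rpow_add hA]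
      refine Real.rpow_le_rpow_of_exponent_ge hA h ?_
      push_cast; linarith
  have h6 : A ^ Q.toReal ≤ ‖x‖ ^ Q.toReal := Real.rpow_le_rpow hA.le hAx hq0.le
  have h7 : A ^ P.toReal ≤ ‖x‖ ^ P.toReal := Real.rpow_le_rpow hA.le hAx (by linarith)
  calc Ku Q.toReal * A ^ 2 * (max (A / √(((j + 1 : ℕ) : ℝ))) (min 1 A)) ^ (Q.toReal - 2)
      ≤ Ku Q.toReal * A ^ 2 * ((A / √(((j + 1 : ℕ) : ℝ))) ^ (Q.toReal - 2)
        + (min 1 A) ^ (Q.toReal - 2)) := by gcongr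
    _ = Ku Q.toReal * (A ^ 2 * (A / √(((j + 1 : ℕ) : ℝ))) ^ (Q.toReal - 2))
        + Ku Q.toReal * (A ^ 2 * (min 1 A) ^ (Q.toReal - 2)) := by ring
    _ ≤ (Ku Q.toReal * ((j + 1 : ℕ) : ℝ) ^ (-((Q.toReal - 2) / 2))) * ‖x‖ ^ Q.toReal
        + Ku Q.toReal * ‖x‖ ^ P.toReal := by
        rw [h2, ← mul_assoc]
        have := h5.trans h7
        gcongr
    _ ≤ δ * ‖x‖ ^ Q.toReal + Ku Q.toReal * ‖x‖ ^ P.toReal := by
        have := hj₀ j hj
        gcongr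

lemma H2_caseI (hP : 1 < P) (hPt : P ≠ ⊤) (hp : 2 ≤ P.toReal) {D : ℕ}
    (x : PiLp P (fun _ : Om 1 D => 𝕜)) (σ : Finset (Fin D))
    (hσ : ∀ i ∈ σ, ‖PP P 1 D x i‖ = 1) : (σ.card : ℝ) ^ (1 : ℝ) ≤ ‖x‖ ^ P.toReal := by
  rw [Real.rpow_one]
  rcases σ.eq_empty_or_nonempty with h | ⟨i, hi⟩
  · rw [h]; simp only [Finset.card_empty, Nat.cast_zero]; positivity
  · have h1 : 1 ≤ ‖PP P 1 D x‖ := by
      rw [← hσ i hi]; exact coord_le_norm _ i
    have hAx := norm_PP_le_caseI P hP hPt hp x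
    calc (σ.card : ℝ) ≤ ‖PP P 1 D x‖ ^ 2 := card_le_norm_sq _ σ hσ
      _ = ‖PP P 1 D x‖ ^ (2 : ℝ) := by exact_mod_cast (Real.rpow_natCast _ 2).symm
      _ ≤ ‖PP P 1 D x‖ ^ P.toReal := Real.rpow_le_rpow_of_exponent_le h1 hp
      _ ≤ ‖x‖ ^ P.toReal := Real.rpow_le_rpow (norm_nonneg _) hAx (by linarith)

end caseI

section caseII

variable (P Q : ℝ≥0∞) [hP1 : Fact (1 ≤ P)] [hQ1 : Fact (1 ≤ Q)]

/-- The constant of case II. -/
noncomputable def C2 (p : ℝ) : ℝ := (Ku p.conjExponent) ^ (p - 1)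

lemma C2_pos (p : ℝ) : 0 < C2 p := by
  have := Ku_pos p.conjExponent
  unfold C2; positivity

lemma key_caseII (hP : 1 < P) (hPt : P ≠ ⊤) (hp : P.toReal ≤ 2) {r D : ℕ} (hr : 0 < r)
    (x : PiLp P (fun _ : Om r D => 𝕜)) {m : ℝ} (hm : 0 < m) (hA : 0 < ‖PP P r D x‖)
    (h1 : ∀ i, ‖PP P r D x i‖ ≤ m) (h2 : ‖PP P r D x‖ ^ 2 / r ≤ m ^ 2) :
    ‖PP P r D x‖ ^ 2 ≤ C2 P.toReal * ‖x‖ ^ P.toReal * m ^ (2 - P.toReal) := by
  have hp1 := one_lt_toReal P hP hPt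
  have hp0 : 0 < P.toReal := by linarith
  set v := P.toReal.conjExponent with hv
  have hv0 : 0 < v := conj_pos P hP hPt
  have hv2 : 2 ≤ v := two_le_conj P hP hPt hp
  have hv1 : 1 / v = 1 - 1 / P.toReal := one_div_conj P hP hPt
  have hvp : v * (P.toReal - 1) = P.toReal := by
    rw [hv, Real.conjExponent]
    have : P.toReal - 1 ≠ 0 := by linarith
    field_simp
  have hK := Ku_pos v
  set A := ‖PP P r D x‖ with hAdef
  have h3 := norm_sq_PP_le P hP hPt x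
  rw [← hv, ← hAdef] at h3
  have h4 : Mom v r D (fun i => (starRingEnd 𝕜) (PP P r D x i)) ≤ Ku v * A ^ 2 * m ^ (v - 2) := by
    have := Mom_le_of_max hv2 hr (fun i => (starRingEnd 𝕜) (PP P r D x i)) hm
      (fun i => by rw [RCLike.norm_conj]; exact h1 i) (by rw [sum_norm_sq_conj]; exact h2)
    rwa [sum_norm_sq_conj] at this
  have h5 : A ^ 2 ≤ ‖x‖ * (Ku v * A ^ 2 * m ^ (v - 2)) ^ (1 / v) := by
    refine h3.trans ?_
    have := Real.rpow_le_rpow (Mom_nonneg _ _ _ _) h4 (by positivity : 0 ≤ 1 / v)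
    gcongr
  have h6 := Real.rpow_le_rpow (by positivity) h5 hp0.le
  rw [Real.mul_rpow (norm_nonneg _) (by positivity), ← Real.rpow_mul (by positivity)] at h6
  have h7 : 1 / v * P.toReal = P.toReal - 1 := by
    rw [hv1]; field_simp
  rw [h7, Real.mul_rpow (by positivity) (by positivity), Real.mul_rpow hK.le (by positivity),
    ← Real.rpow_mul hm.le] at h6
  have h8 : (v - 2) * (P.toReal - 1) = 2 - P.toReal := by linarith
  rw [h8] at h6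
  have h9 : (A ^ 2) ^ P.toReal = A ^ 2 * (A ^ 2) ^ (P.toReal - 1) := by
    rw [Real.rpow_sub_one (by positivity)]; field_simp
  rw [h9] at h6
  have h10 : 0 < (A ^ 2) ^ (P.toReal - 1) := by positivity
  have h11 : A ^ 2 * (A ^ 2) ^ (P.toReal - 1)
      ≤ (C2 P.toReal * ‖x‖ ^ P.toReal * m ^ (2 - P.toReal)) * (A ^ 2) ^ (P.toReal - 1) := by
    refine h6.trans (le_of_eq ?_)
    unfold C2
    ring
  exact le_of_mul_le_mul_right h11 h10

lemma rpow_le_caseII (hP : 1 < P) (hPt : P ≠ ⊤) (hp : P.toReal ≤ 2) {r D : ℕ} (hr : 0 < r)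
    (x : PiLp P (fun _ : Om r D => 𝕜)) :
    ‖PP P r D x‖ ^ P.toReal ≤ C2 P.toReal * ‖x‖ ^ P.toReal := by
  have hp1 := one_lt_toReal P hP hPt
  have hp0 : 0 < P.toReal := by linarith
  have hC := C2_pos P.toReal
  rcases (norm_nonneg (PP P r D x)).eq_or_lt with h0 | hA
  · rw [← h0, Real.zero_rpow hp0.ne']; positivity
  have hr1 : (1 : ℝ) ≤ r := by exact_mod_cast hr
  have h1 := key_caseII P hP hPt hp hr x hA hA (fun i => coord_le_norm _ i) (by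
    rw [div_le_iff₀ (by linarith)]
    nlinarith [sq_nonneg ‖PP P r D x‖])
  have h2 : ‖PP P r D x‖ ^ 2 = ‖PP P r D x‖ ^ P.toReal * ‖PP P r D x‖ ^ (2 - P.toReal) := by
    rw [← Real.rpow_natCast _ 2, ← Real.rpow_add hA]; norm_num
  rw [h2] at h1
  exact le_of_mul_le_mul_right h1 (by positivity)

omit hQ1 in
lemma A_le_caseII (hP : 1 < P) (hPt : P ≠ ⊤) (hp : P.toReal < 2) (hpq : P.toReal < Q.toReal)
    {r D : ℕ} (hr : 0 < r) (x : PiLp P (fun _ : Om r D => 𝕜)) (hx : ∀ i, ‖PP P r D x i‖ ≤ 1) :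
    ‖PP P r D x‖ ^ Q.toReal ≤
      (C2 P.toReal ^ (Q.toReal / P.toReal)
        * (r : ℝ) ^ (-((2 - P.toReal) / 2 * (Q.toReal / P.toReal)))) * ‖x‖ ^ Q.toReal
      + (C2 P.toReal * ‖x‖ ^ P.toReal + C2 P.toReal ^ (max Q.toReal 2 / 2)
        * ‖x‖ ^ (P.toReal * (max Q.toReal 2 / 2))) := by
  have hr' : (0 : ℝ) < r := by exact_mod_cast hr
  have hr1 : (1 : ℝ) ≤ r := by exact_mod_cast hr
  have hp1 := one_lt_toReal P hP hPt
  have hp0 : 0 < P.toReal := by linarith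
  have hq0 : 0 < Q.toReal := by linarith
  have hC := C2_pos P.toReal
  have ht1 : 0 ≤ (C2 P.toReal ^ (Q.toReal / P.toReal)
        * (r : ℝ) ^ (-((2 - P.toReal) / 2 * (Q.toReal / P.toReal)))) * ‖x‖ ^ Q.toReal := by
    positivity
  have ht2 : 0 ≤ C2 P.toReal * ‖x‖ ^ P.toReal := by positivity
  have ht3 : 0 ≤ C2 P.toReal ^ (max Q.toReal 2 / 2)
        * ‖x‖ ^ (P.toReal * (max Q.toReal 2 / 2)) := by positivity
  rcases (norm_nonneg (PP P r D x)).eq_or_lt with h0 | hA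
  · rw [← h0, Real.zero_rpow hq0.ne']; linarith
  set A := ‖PP P r D x‖ with hAdef
  rcases le_total A 1 with hA1 | hA1
  · have h1 := rpow_le_caseII P hP hPt hp.le hr x
    rw [← hAdef] at h1
    have h2 : A ^ Q.toReal ≤ A ^ P.toReal := Real.rpow_le_rpow_of_exponent_ge hA hA1 hpq.le
    linarith
  · rcases le_total (A / √(r : ℝ)) 1 with hm | hm
    · -- `m = 1`
      have h1 := key_caseII P hP hPt hp.le hr x one_pos hA hx (by
        rw [← hAdef, one_pow]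
        have h2 : A ^ 2 / r = (A / √(r : ℝ)) ^ 2 := by
          rw [div_pow, Real.sq_sqrt hr'.le]
        rw [h2]
        exact pow_le_one₀ (by positivity) hm)
      rw [← hAdef, Real.one_rpow, mul_one] at h1
      have h2 : A ^ Q.toReal ≤ A ^ (max Q.toReal 2) :=
        Real.rpow_le_rpow_of_exponent_le hA1 (le_max_left _ _)
      have h3 : A ^ (max Q.toReal 2) = (A ^ 2) ^ (max Q.toReal 2 / 2) := by
        rw [← Real.rpow_natCast A 2, ← Real.rpow_mul hA.le]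
        congr 1; push_cast; ring
      have h4 := Real.rpow_le_rpow (by positivity) h1
        (by positivity : 0 ≤ max Q.toReal 2 / 2)
      rw [Real.mul_rpow hC.le (by positivity), ← Real.rpow_mul (norm_nonneg _)] at h4
      rw [h3] at h2
      linarith
    · -- `m = A / √r`
      have h1 := key_caseII P hP hPt hp.le hr x (m := A / √(r : ℝ)) (by positivity) hA
        (fun i => (hx i).trans hm) (by
          rw [← hAdef, div_pow, Real.sq_sqrt hr'.le])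
      rw [← hAdef, Real.div_rpow hA.le (Real.sqrt_nonneg _), Real.sqrt_eq_rpow,
        ← Real.rpow_mul hr'.le] at h1
      have h2 : A ^ 2 = A ^ P.toReal * A ^ (2 - P.toReal) := by
        rw [← Real.rpow_natCast A 2, ← Real.rpow_add hA]; norm_num
      rw [h2] at h1
      have h3 : A ^ P.toReal ≤ C2 P.toReal * ‖x‖ ^ P.toReal
          * (r : ℝ) ^ (-((2 - P.toReal) / 2)) := by
        have h4 : A ^ P.toReal * A ^ (2 - P.toReal) ≤ (C2 P.toReal * ‖x‖ ^ P.toReal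
          * (r : ℝ) ^ (-((2 - P.toReal) / 2))) * A ^ (2 - P.toReal) := by
          refine h1.trans (le_of_eq ?_)
          rw [Real.rpow_neg hr'.le]
          have h5 : 1 / 2 * (2 - P.toReal) = (2 - P.toReal) / 2 := by ring
          rw [h5]
          field_simp
        exact le_of_mul_le_mul_right h4 (by positivity)
      have h6 := Real.rpow_le_rpow (by positivity) h3
        (by positivity : 0 ≤ Q.toReal / P.toReal)
      rw [← Real.rpow_mul hA.le, mul_div_cancel₀ _ hp0.ne', Real.mul_rpow (by positivity)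
        (by positivity), Real.mul_rpow hC.le (by positivity), ← Real.rpow_mul (norm_nonneg _),
        mul_div_cancel₀ _ hp0.ne', ← Real.rpow_mul hr'.le, neg_mul] at h6
      have h7 : C2 P.toReal ^ (Q.toReal / P.toReal) * ‖x‖ ^ Q.toReal
          * (r : ℝ) ^ (-((2 - P.toReal) / 2 * (Q.toReal / P.toReal)))
          = (C2 P.toReal ^ (Q.toReal / P.toReal)
        * (r : ℝ) ^ (-((2 - P.toReal) / 2 * (Q.toReal / P.toReal)))) * ‖x‖ ^ Q.toReal := by ring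
      rw [h7] at h6
      linarith

lemma H1_caseII (hP : 1 < P) (hPt : P ≠ ⊤) (hQt : Q ≠ ⊤) (hp : P.toReal < 2)
    (hpq : P.toReal < Q.toReal) {δ : ℝ} (hδ : 0 < δ) :
    ∃ j₀ : ℕ, ∀ j, j₀ ≤ j → ∀ (D : ℕ) (x : PiLp P (fun _ : Om (j + 1) D => 𝕜)),
      (∀ i, ‖PP P (j + 1) D x i‖ ≤ 1) → ‖JJ Q 1 D (PP P (j + 1) D x)‖ ^ Q.toReal
        ≤ δ * ‖x‖ ^ Q.toReal + CJ Q.toReal ^ Q.toReal * (C2 P.toReal * ‖x‖ ^ P.toReal
          + C2 P.toReal ^ (max Q.toReal 2 / 2) * ‖x‖ ^ (P.toReal * (max Q.toReal 2 / 2))) := by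
  have hp1 := one_lt_toReal P hP hPt
  have hp0 : 0 < P.toReal := by linarith
  have hq0 : 0 < Q.toReal := by linarith
  have hCJ : 0 < CJ Q.toReal := lt_of_lt_of_le one_pos (one_le_CJ _)
  have hc : 0 < (2 - P.toReal) / 2 * (Q.toReal / P.toReal) := by
    have : 0 < 2 - P.toReal := by linarith
    positivity
  obtain ⟨j₀, hj₀⟩ := tendsto_aux hc
    (CJ Q.toReal ^ Q.toReal * C2 P.toReal ^ (Q.toReal / P.toReal)) hδ
  refine ⟨j₀, fun j hj D x hx => ?_⟩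
  have h1 := A_le_caseII P Q hP hPt hp hpq (Nat.succ_pos j) x hx
  have h2 : ‖JJ Q 1 D (PP P (j + 1) D x)‖ ^ Q.toReal
      ≤ CJ Q.toReal ^ Q.toReal * ‖PP P (j + 1) D x‖ ^ Q.toReal := by
    rw [← Real.mul_rpow hCJ.le (norm_nonneg _)]
    exact Real.rpow_le_rpow (norm_nonneg _) (norm_JJ_one_le Q hQt _) hq0.le
  have h3 := hj₀ j hj
  calc ‖JJ Q 1 D (PP P (j + 1) D x)‖ ^ Q.toReal
      ≤ CJ Q.toReal ^ Q.toReal * ‖PP P (j + 1) D x‖ ^ Q.toReal := h2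
    _ ≤ CJ Q.toReal ^ Q.toReal * ((C2 P.toReal ^ (Q.toReal / P.toReal)
        * ((j + 1 : ℕ) : ℝ) ^ (-((2 - P.toReal) / 2 * (Q.toReal / P.toReal)))) * ‖x‖ ^ Q.toReal
      + (C2 P.toReal * ‖x‖ ^ P.toReal + C2 P.toReal ^ (max Q.toReal 2 / 2)
        * ‖x‖ ^ (P.toReal * (max Q.toReal 2 / 2)))) := by gcongr
    _ = (CJ Q.toReal ^ Q.toReal * C2 P.toReal ^ (Q.toReal / P.toReal)
        * ((j + 1 : ℕ) : ℝ) ^ (-((2 - P.toReal) / 2 * (Q.toReal / P.toReal)))) * ‖x‖ ^ Q.toReal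
      + CJ Q.toReal ^ Q.toReal * (C2 P.toReal * ‖x‖ ^ P.toReal
        + C2 P.toReal ^ (max Q.toReal 2 / 2) * ‖x‖ ^ (P.toReal * (max Q.toReal 2 / 2))) := by ring
    _ ≤ _ := by gcongr

lemma H2_caseII (hP : 1 < P) (hPt : P ≠ ⊤) (hp : P.toReal ≤ 2) {r D : ℕ} (hr : 0 < r)
    (x : PiLp P (fun _ : Om r D => 𝕜)) (σ : Finset (Fin D))
    (hσ : ∀ i ∈ σ, ‖PP P r D x i‖ = 1) :
    (σ.card : ℝ) ^ (P.toReal / 2) ≤ C2 P.toReal * ‖x‖ ^ P.toReal := by
  have hp1 := one_lt_toReal P hP hPt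
  refine le_trans ?_ (rpow_le_caseII P hP hPt hp hr x)
  have h1 := Real.rpow_le_rpow (by positivity) (card_le_norm_sq _ σ hσ)
    (by positivity : 0 ≤ P.toReal / 2)
  refine h1.trans (le_of_eq ?_)
  rw [← Real.rpow_natCast _ 2, ← Real.rpow_mul (norm_nonneg _)]
  congr 1; push_cast; ring

end caseII

end Pool.Agent.Work.MP_4336d9_an
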