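import Pool.Agent.Work.MP_4336d9_an.BlockSum

/-! The `ℓ_p` sum of finite-dimensional `ℓ_p` spaces is `ℓ_p`. -/

open Finset Filter Topology
open scoped ENNReal

namespace Pool.Agent.Work.MP_4336d9_an

variable {𝕜 : Type*} [RCLike 𝕜] {α : ℕ → Type} [∀ j, Fintype (α j)]
  {P : ℝ≥0∞} [hP1 : Fact (1 ≤ P)]

omit hP1 in
lemma piLp_norm_rpow (hP : 0 < P.toReal) {β : Type*} [Fintype β] (x : PiLp P (fun _ : β => 𝕜)) :
    ‖x‖ ^ P.toReal = ∑ i, ‖x i‖ ^ P.toReal := by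
  rw [PiLp.norm_eq_sum hP, ← Real.rpow_mul (by positivity), one_div_mul_cancel hP.ne',
    Real.rpow_one]

lemma summable_sigma_aux (hP : 0 < P.toReal) (x : lp (fun j => PiLp P (fun _ : α j => 𝕜)) P) :
    Summable (fun k : Σ j, α j => ‖x k.1 k.2‖ ^ P.toReal) := by
  rw [summable_sigma_of_nonneg (fun _ => by positivity)]
  refine ⟨fun j => (hasSum_fintype _).summable, ?_⟩
  have h1 : ∀ j, ∑' ω : α j, ‖x j ω‖ ^ P.toReal = ‖x j‖ ^ P.toReal := by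
    intro j
    rw [tsum_fintype, piLp_norm_rpow hP]
  simp only [h1]
  exact (lp.memℓp x).summable hP

lemma tsum_sigma_aux (hP : 0 < P.toReal) (x : lp (fun j => PiLp P (fun _ : α j => 𝕜)) P) :
    ∑' k : Σ j, α j, ‖x k.1 k.2‖ ^ P.toReal = ‖x‖ ^ P.toReal := by
  rw [(summable_sigma_aux hP x).tsum_sigma, lp.norm_rpow_eq_tsum hP]
  refine tsum_congr fun j => ?_
  rw [tsum_fintype, piLp_norm_rpow hP]

/-- From the `ℓ_p` sum to `ℓ_p`. -/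
noncomputable def UU (hP : 0 < P.toReal) (e : ℕ ≃ Σ j, α j) :
    lp (fun j => PiLp P (fun _ : α j => 𝕜)) P →L[𝕜] lp (fun _ : ℕ => 𝕜) P :=
  LinearMap.mkContinuous
    { toFun := fun x => ⟨fun n => x (e n).1 (e n).2,
        memℓp_gen (e.summable_iff.2 (summable_sigma_aux hP x))⟩
      map_add' := by intro x y; ext n; simp
      map_smul' := by intro c x; ext n; simp }
    1 (by
      intro x
      refine lp.norm_le_of_tsum_le hP (by positivity) ?_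
      rw [one_mul]
      refine le_of_eq ?_
      rw [← tsum_sigma_aux hP x]
      exact e.tsum_eq (fun k : Σ j, α j => ‖x k.1 k.2‖ ^ P.toReal))

@[simp] lemma UU_apply (hP : 0 < P.toReal) (e : ℕ ≃ Σ j, α j)
    (x : lp (fun j => PiLp P (fun _ : α j => 𝕜)) P) (n : ℕ) :
    UU hP e x n = x (e n).1 (e n).2 := rfl

omit hP1 [∀ j, Fintype (α j)] in
lemma summable_aux' (hP : 0 < P.toReal) (e : ℕ ≃ Σ j, α j) (y : lp (fun _ : ℕ => 𝕜) P) :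
    Summable (fun k : Σ j, α j => ‖y (e.symm k)‖ ^ P.toReal) :=
  e.symm.summable_iff.2 ((lp.memℓp y).summable hP)

omit hP1 in
lemma piLp_aux' (hP : 0 < P.toReal) (e : ℕ ≃ Σ j, α j) (y : lp (fun _ : ℕ => 𝕜) P) (j : ℕ) :
    ‖(WithLp.toLp P (fun ω : α j => y (e.symm ⟨j, ω⟩)) : PiLp P (fun _ : α j => 𝕜))‖ ^ P.toReal
      = ∑' ω : α j, ‖y (e.symm ⟨j, ω⟩)‖ ^ P.toReal := by
  rw [tsum_fintype, piLp_norm_rpow hP]

/-- From `ℓ_p` to the `ℓ_p` sum. -/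
noncomputable def UU' (hP : 0 < P.toReal) (e : ℕ ≃ Σ j, α j) :
    lp (fun _ : ℕ => 𝕜) P →L[𝕜] lp (fun j => PiLp P (fun _ : α j => 𝕜)) P :=
  LinearMap.mkContinuous
    { toFun := fun y => ⟨fun j => WithLp.toLp P (fun ω : α j => y (e.symm ⟨j, ω⟩)),
        memℓp_gen (by
          simp only [piLp_aux' hP e y]
          exact ((summable_sigma_of_nonneg (fun _ => by positivity)).1
            (summable_aux' hP e y)).2)⟩
      map_add' := by intro x y; ext j ω; simp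
      map_smul' := by intro c x; ext j ω; simp }
    1 (by
      intro y
      refine lp.norm_le_of_tsum_le hP (by positivity) ?_
      rw [one_mul]
      refine le_of_eq ?_
      have h1 : ∀ j, ‖(WithLp.toLp P (fun ω : α j => y (e.symm ⟨j, ω⟩)) :
        PiLp P (fun _ : α j => 𝕜))‖ ^ P.toReal
        = ∑' ω : α j, ‖y (e.symm ⟨j, ω⟩)‖ ^ P.toReal := piLp_aux' hP e y
      have h2 : ∑' j, ∑' ω : α j, ‖y (e.symm ⟨j, ω⟩)‖ ^ P.toReal = ‖y‖ ^ P.toReal := by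
        rw [lp.norm_rpow_eq_tsum hP, ← (summable_aux' hP e y).tsum_sigma]
        exact e.symm.tsum_eq (fun n => ‖y n‖ ^ P.toReal)
      rw [← h2]
      exact tsum_congr h1)

@[simp] lemma UU'_apply (hP : 0 < P.toReal) (e : ℕ ≃ Σ j, α j) (y : lp (fun _ : ℕ => 𝕜) P)
    (j : ℕ) (ω : α j) : UU' hP e y j ω = y (e.symm ⟨j, ω⟩) := rfl

lemma UU'_UU (hP : 0 < P.toReal) (e : ℕ ≃ Σ j, α j)
    (x : lp (fun j => PiLp P (fun _ : α j => 𝕜)) P) : UU' hP e (UU hP e x) = x := by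
  ext j ω
  rw [UU'_apply, UU_apply]
  change (fun k : Σ j, α j => x k.1 k.2) (e (e.symm ⟨j, ω⟩)) = _
  rw [e.apply_symm_apply]

lemma norm_UU_le (hP : 0 < P.toReal) (e : ℕ ≃ Σ j, α j) :
    ‖(UU hP e : lp (fun j => PiLp P (fun _ : α j => 𝕜)) P →L[𝕜] lp (fun _ : ℕ => 𝕜) P)‖ ≤ 1 :=
  LinearMap.mkContinuous_norm_le _ zero_le_one _

lemma norm_UU'_le (hP : 0 < P.toReal) (e : ℕ ≃ Σ j, α j) :
    ‖(UU' hP e : lp (fun _ : ℕ => 𝕜) P →L[𝕜] lp (fun j => PiLp P (fun _ : α j => 𝕜)) P)‖ ≤ 1 :=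
  LinearMap.mkContinuous_norm_le _ zero_le_one _

lemma norm_UU_apply_le (hP : 0 < P.toReal) (e : ℕ ≃ Σ j, α j)
    (x : lp (fun j => PiLp P (fun _ : α j => 𝕜)) P) : ‖UU hP e x‖ ≤ ‖x‖ := by
  have h0 := norm_UU_le (𝕜 := 𝕜) hP e
  have h1 := (UU (𝕜 := 𝕜) hP e).le_opNorm x
  have h2 : ‖UU (𝕜 := 𝕜) hP e‖ * ‖x‖ ≤ ‖x‖ := mul_le_of_le_one_left (norm_nonneg _) h0
  exact h1.trans h2

lemma norm_UU'_apply_le (hP : 0 < P.toReal) (e : ℕ ≃ Σ j, α j)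
    (x : lp (fun _ : ℕ => 𝕜) P) : ‖UU' hP e x‖ ≤ ‖x‖ := by
  have h0 := norm_UU'_le (𝕜 := 𝕜) hP e
  have h1 := (UU' (𝕜 := 𝕜) hP e).le_opNorm x
  have h2 : ‖UU' (𝕜 := 𝕜) hP e‖ * ‖x‖ ≤ ‖x‖ := mul_le_of_le_one_left (norm_nonneg _) h0
  exact h1.trans h2

/-- Embedding of a block. -/
noncomputable def VV (hP : 0 < P.toReal) (e : ℕ ≃ Σ j, α j) (j : ℕ) :
    PiLp P (fun _ : α j => 𝕜) →L[𝕜] lp (fun _ : ℕ => 𝕜) P :=
  (UU (𝕜 := 𝕜) hP e).comp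
    (lp.singleContinuousLinearMap 𝕜 (fun j => PiLp P (fun _ : α j => 𝕜)) P j)

lemma VV_apply (hP : 0 < P.toReal) (e : ℕ ≃ Σ j, α j) (j : ℕ) (x : PiLp P (fun _ : α j => 𝕜)) :
    VV (𝕜 := 𝕜) hP e j x
      = UU (𝕜 := 𝕜) hP e (lp.single (E := fun j => PiLp P (fun _ : α j => 𝕜)) P j x) := rfl

lemma norm_VV_le (hP : 0 < P.toReal) (e : ℕ ≃ Σ j, α j) (j : ℕ)
    (x : PiLp P (fun _ : α j => 𝕜)) : ‖VV (𝕜 := 𝕜) hP e j x‖ ≤ ‖x‖ := by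
  have h0 : 0 < P := (ENNReal.toReal_pos_iff.1 hP).1
  have h1 := norm_UU_apply_le (𝕜 := 𝕜) hP e
    (lp.single (E := fun j => PiLp P (fun _ : α j => 𝕜)) P j x)
  have h2 := lp.norm_single (E := fun j => PiLp P (fun _ : α j => 𝕜)) h0 j x
  rw [h2] at h1
  rw [VV_apply]
  exact h1

lemma UU'_VV (hP : 0 < P.toReal) (e : ℕ ≃ Σ j, α j) (j : ℕ) (x : PiLp P (fun _ : α j => 𝕜)) :
    UU' (𝕜 := 𝕜) hP e (VV (𝕜 := 𝕜) hP e j x)
      = lp.single (E := fun j => PiLp P (fun _ : α j => 𝕜)) P j x := by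
  rw [VV_apply, UU'_UU]

/-- Restriction to a block. -/
noncomputable def WW (hP : 0 < P.toReal) (e : ℕ ≃ Σ j, α j) (j : ℕ) :
    lp (fun _ : ℕ => 𝕜) P →L[𝕜] PiLp P (fun _ : α j => 𝕜) :=
  (lp.evalCLM 𝕜 (fun j => PiLp P (fun _ : α j => 𝕜)) P j).comp (UU' (𝕜 := 𝕜) hP e)

lemma WW_apply (hP : 0 < P.toReal) (e : ℕ ≃ Σ j, α j) (j : ℕ) (y : lp (fun _ : ℕ => 𝕜) P) :
    WW (𝕜 := 𝕜) hP e j y = UU' (𝕜 := 𝕜) hP e y j := rfl

lemma norm_WW_le (hP : 0 < P.toReal) (e : ℕ ≃ Σ j, α j) (j : ℕ)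
    (y : lp (fun _ : ℕ => 𝕜) P) : ‖WW (𝕜 := 𝕜) hP e j y‖ ≤ ‖y‖ := by
  have h0 : P ≠ 0 := ((ENNReal.toReal_pos_iff.1 hP).1).ne'
  have h1 := norm_UU'_apply_le (𝕜 := 𝕜) hP e y
  rw [WW_apply]
  exact (lp.norm_apply_le_norm h0 _ j).trans h1

end Pool.Agent.Work.MP_4336d9_an
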