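import Pool.Agent.Work.MP_4336d9_an.NonMem
import Pool.Agent.Work.MP_4336d9_an.Estimates
import Pool.Agent.Work.MP_4336d9_an.Transport

/-! Assembly: no single operator generates the ideal of finitely strictly singular operators. -/

open Finset Filter Topology
open scoped ENNReal

namespace Pool.Agent.Work.MP_4336d9_an

variable {𝕜 : Type*} [RCLike 𝕜]

lemma self_mem_closedIdeal {X Y : Type*} [NormedAddCommGroup X] [NormedSpace 𝕜 X]
    [NormedAddCommGroup Y] [NormedSpace 𝕜 Y] (T : X →L[𝕜] Y) : T ∈ closedIdeal T := by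
  apply subset_closure
  refine ⟨1, fun _ => ContinuousLinearMap.id 𝕜 Y, fun _ => ContinuousLinearMap.id 𝕜 X, ?_⟩
  simp [sandwich]

lemma exists_equiv (r : ℕ → ℕ) (hr : ∀ j, 0 < r j) (D : ℕ → ℕ) :
    Nonempty (ℕ ≃ Σ j, Om (r j) (D j)) := by
  have h : ∀ j, Nonempty (Om (r j) (D j)) := fun j => ⟨fun _ => (⟨0, hr j⟩, true)⟩
  have : Infinite (Σ j, Om (r j) (D j)) :=
    Infinite.of_injective (fun j : ℕ => (⟨j, (h j).some⟩ : Σ j, Om (r j) (D j)))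
      (fun a b hab => congrArg Sigma.fst hab)
  exact nonempty_equiv_of_countable

theorem assemble (P Q : ℝ≥0∞) [hP1 : Fact (1 ≤ P)] [hQ1 : Fact (1 ≤ Q)]
    (hP : 1 < P) (hPQ : P < Q) (hQt : Q ≠ ⊤)
    (r r' : ℕ → ℕ) (hr : ∀ j, 0 < r j) (hr' : ∀ j, 0 < r' j)
    (K : ℝ) (hK : 1 ≤ K) (w₁ w₂ : ℕ → ℝ) (hw₁ : ∀ j, 0 < w₁ j) (hw₂ : ∀ j, 0 < w₂ j)
    (hJ : ∀ (j D : ℕ) (a : EuclideanSpace 𝕜 (Fin D)), ‖JJ Q (r j) D a‖ ≤ K * ‖a‖)
    (hPP : ∀ (j D : ℕ) (x : PiLp P (fun _ : Om (r' j) D => 𝕜)), ‖PP P (r' j) D x‖ ≤ K * ‖x‖)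
    (hV : ∀ (j D : ℕ) (a : EuclideanSpace 𝕜 (Fin D)), w₁ j * ‖JJ P (r' j) D a‖ ≤ K * ‖a‖)
    (hW : ∀ (j D : ℕ) (x : PiLp Q (fun _ : Om (r j) D => 𝕜)), w₂ j * ‖PP Q (r j) D x‖ ≤ K * ‖x‖)
    (L : ℝ) (hL : 1 ≤ L) {s t : ℝ} (hps : P.toReal ≤ s) (hsq : s < Q.toReal)
    (ht : 0 < t) (ht1 : t ≤ 1)
    (H1 : ∀ δ : ℝ, 0 < δ → ∃ j₀ : ℕ, ∀ j, j₀ ≤ j → ∀ (D : ℕ)
      (x : PiLp P (fun _ : Om (r' j) D => 𝕜)), (∀ i, ‖PP P (r' j) D x i‖ ≤ 1) →
      ‖JJ Q (r j) D (PP P (r' j) D x)‖ ^ Q.toReal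
        ≤ δ * ‖x‖ ^ Q.toReal + L * (‖x‖ ^ P.toReal + ‖x‖ ^ s))
    (H2 : ∀ (j D : ℕ) (x : PiLp P (fun _ : Om (r' j) D => 𝕜)), (∀ i, ‖PP P (r' j) D x i‖ ≤ 1) →
      ∀ σ : Finset (Fin D), (∀ i ∈ σ, ‖PP P (r' j) D x i‖ = 1) →
      (σ.card : ℝ) ^ t ≤ L * ‖x‖ ^ P.toReal)
    (T : lp (fun _ : ℕ => 𝕜) P →L[𝕜] lp (fun _ : ℕ => 𝕜) Q) :
    closedIdeal T ≠ {S | IsFSS S} := by
  have hPt : P ≠ ⊤ := (hPQ.trans_le le_top).ne
  have hp0 : 0 < P.toReal := toReal_pos' P hPt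
  have hq0 : 0 < Q.toReal := toReal_pos' Q hQt
  have hpqr : P.toReal ≤ Q.toReal := (ENNReal.toReal_le_toReal hPt hQt).2 hPQ.le
  have hK0 : 0 < K := by linarith
  have hL0 : 0 < L := by linarith
  intro heq
  have hT : IsFSS T := by
    have := self_mem_closedIdeal T
    rw [heq] at this
    exact this
  -- the profile of `T`
  have hw : ∀ j, 0 < w₁ j * w₂ j := fun j => mul_pos (hw₁ j) (hw₂ j)
  have hn : ∀ j : ℕ, ∃ n : ℕ, Prof (T : lp (fun _ : ℕ => 𝕜) P →ₗ[𝕜] lp (fun _ : ℕ => 𝕜) Q)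
      ((w₁ j * w₂ j) / (4 * ((j : ℝ) + 1) ^ 3 * K ^ 2)) n := fun j =>
    Prof.of_isFSS hT (by have := hw j; positivity)
  choose n hn using hn
  have hD : ∀ j : ℕ, ∃ D : ℕ, ((j : ℝ) + 1) ^ 3 * K ^ 2 * ‖T‖ * n j < D * (w₁ j * w₂ j) / 2 := by
    intro j
    obtain ⟨D, hD⟩ := exists_nat_gt (((j : ℝ) + 1) ^ 3 * K ^ 2 * ‖T‖ * n j / ((w₁ j * w₂ j) / 2))
    refine ⟨D, ?_⟩
    have h2 : 0 < (w₁ j * w₂ j) / 2 := by have := hw j; positivity
    rw [div_lt_iff₀ h2] at hD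
    linarith
  choose D hD using hD
  obtain ⟨e⟩ := exists_equiv r' hr' D
  obtain ⟨e'⟩ := exists_equiv r hr D
  -- the operator
  obtain ⟨SB, hSBdef⟩ : ∃ SB : ∀ j, PiLp P (fun _ : Om (r' j) (D j) => 𝕜) →L[𝕜]
      PiLp Q (fun _ : Om (r j) (D j) => 𝕜),
      ∀ j x, SB j x = JJ Q (r j) (D j) (PP P (r' j) (D j) x) :=
    ⟨fun j => (JJ Q (r j) (D j)).comp (PP P (r' j) (D j)), fun _ _ => rfl⟩
  have hSB : ∀ j x, ‖SB j x‖ ≤ K ^ 2 * ‖x‖ := by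
    intro j x
    rw [hSBdef]
    calc ‖JJ Q (r j) (D j) (PP P (r' j) (D j) x)‖ ≤ K * ‖PP P (r' j) (D j) x‖ := hJ _ _ _
      _ ≤ K * (K * ‖x‖) := by gcongr; exact hPP _ _ _
      _ = K ^ 2 * ‖x‖ := by ring
  obtain ⟨S₀, hS₀def, hS₀⟩ : ∃ S₀ : lp (fun j => PiLp P (fun _ : Om (r' j) (D j) => 𝕜)) P →L[𝕜]
      lp (fun j => PiLp Q (fun _ : Om (r j) (D j) => 𝕜)) Q,
      (∀ x j, S₀ x j = SB j (x j)) ∧ IsFSS S₀ := by
    refine ⟨bsum hp0 hq0 hPQ.le hpqr SB (K ^ 2) (by positivity) hSB, fun _ _ => rfl, ?_⟩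
    refine isFSS_bsum hp0 hq0 hPQ.le hpqr SB (K ^ 2) (by positivity) hSB D
      (fun j => PP P (r' j) (D j)) hL0 ?_ ?_ hps hsq ht ht1 ?_ ?_
    · intro j x i
      have h1 := norm_PP_coord_le P hP hPt (hr' j) x i
      have : ‖x‖ ≤ L * ‖x‖ := by nlinarith [norm_nonneg x]
      exact h1.trans this
    · intro j x hx
      have : PP P (r' j) (D j) x = 0 := by
        ext i; simpa using hx i
      rw [hSBdef, this, map_zero]
    · intro δ hδ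
      obtain ⟨j₀, hj₀⟩ := H1 δ hδ
      refine ⟨j₀, fun j hj x hx => ?_⟩
      rw [hSBdef]
      exact hj₀ j hj (D j) x hx
    · intro j x hx σ hσ
      exact H2 j (D j) x hx σ hσ
  obtain ⟨S₁, hS₁def, hS₁⟩ : ∃ S₁ : lp (fun _ : ℕ => 𝕜) P →L[𝕜] lp (fun _ : ℕ => 𝕜) Q,
      (∀ x, S₁ x = UU (𝕜 := 𝕜) hq0 e' (S₀ (UU' (𝕜 := 𝕜) hp0 e x))) ∧ IsFSS S₁ := by
    refine ⟨(UU (𝕜 := 𝕜) hq0 e').comp (S₀.comp (UU' (𝕜 := 𝕜) hp0 e)), fun _ => rfl, ?_⟩
    apply isFSS_of_prof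
    intro ε hε
    obtain ⟨m, hm⟩ := Prof.of_isFSS hS₀ hε
    refine ⟨m, ?_⟩
    have h1 := norm_UU_le (𝕜 := 𝕜) hq0 e'
    have h2 := norm_UU'_le (𝕜 := 𝕜) hp0 e
    have := hm.comp hε.le (UU (𝕜 := 𝕜) hq0 e') (UU' (𝕜 := 𝕜) hp0 e) h1 h2
    rwa [one_mul, mul_one] at this
  have hmem : S₁ ∈ closedIdeal T := by rw [heq]; exact hS₁
  obtain ⟨V, hVdef⟩ : ∃ V : ∀ j, EuclideanSpace 𝕜 (Fin (D j)) →L[𝕜] lp (fun _ : ℕ => 𝕜) P,
      ∀ j a, V j a = VV (𝕜 := 𝕜) hp0 e j (((w₁ j : ℝ) : 𝕜) • JJ P (r' j) (D j) a) :=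
    ⟨fun j => (VV (𝕜 := 𝕜) hp0 e j).comp (((w₁ j : ℝ) : 𝕜) • JJ P (r' j) (D j)),
      fun _ _ => rfl⟩
  obtain ⟨W, hWdef⟩ : ∃ W : ∀ j, lp (fun _ : ℕ => 𝕜) Q →L[𝕜] EuclideanSpace 𝕜 (Fin (D j)),
      ∀ j y, W j y = ((w₂ j : ℝ) : 𝕜) • PP Q (r j) (D j) (WW (𝕜 := 𝕜) hq0 e' j y) :=
    ⟨fun j => (((w₂ j : ℝ) : 𝕜) • PP Q (r j) (D j)).comp (WW (𝕜 := 𝕜) hq0 e' j),
      fun _ _ => rfl⟩
  have hVn : ∀ j a, ‖V j a‖ ≤ w₁ j * ‖JJ P (r' j) (D j) a‖ := by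
    intro j a
    rw [hVdef]
    refine (norm_VV_le (𝕜 := 𝕜) hp0 e j _).trans (le_of_eq ?_)
    rw [norm_smul, RCLike.norm_ofReal, abs_of_pos (hw₁ j)]
  refine not_mem_closedIdeal D (fun j => w₁ j * w₂ j) hw K hK0 n hn hD S₁ V W ?_ ?_ ?_ ?_ hmem
  · intro j
    refine ContinuousLinearMap.opNorm_le_bound _ hK0.le fun a => ?_
    exact (hVn j a).trans (hV j (D j) a)
  · intro j
    refine ContinuousLinearMap.opNorm_le_bound _ hK0.le fun y => ?_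
    rw [hWdef, norm_smul, RCLike.norm_ofReal, abs_of_pos (hw₂ j)]
    refine (hW j (D j) _).trans ?_
    have := norm_WW_le (𝕜 := 𝕜) hq0 e' j y
    gcongr
  · intro j i
    rw [hWdef, WW_apply, hS₁def, UU'_UU, hS₀def, hVdef, UU'_VV, lp.single_apply_self, hSBdef,
      map_smul, PP_JJ P (hr' j), PP_JJ Q (hr j), PiLp.smul_apply, PiLp.smul_apply,
      PiLp.single_apply, if_pos rfl, smul_eq_mul, smul_eq_mul, mul_one, RCLike.ofReal_mul,
      mul_comm]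
  · intro j i Δ
    rw [hWdef]
    have h2 : ‖V j (EuclideanSpace.single i 1)‖ ≤ w₁ j := by
      have := hVn j (EuclideanSpace.single i 1)
      rwa [norm_JJ_single P hPt (hr' j), mul_one] at this
    have h3 : ‖WW (𝕜 := 𝕜) hq0 e' j (Δ (V j (EuclideanSpace.single i 1)))‖ ≤ ‖Δ‖ * w₁ j :=
      (norm_WW_le (𝕜 := 𝕜) hq0 e' j _).trans ((Δ.le_opNorm _).trans (by gcongr))
    rw [PiLp.smul_apply, norm_smul, RCLike.norm_ofReal, abs_of_pos (hw₂ j)]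
    have h4 := norm_PP_coord_le Q (hP.trans hPQ) hQt (hr j)
      (WW (𝕜 := 𝕜) hq0 e' j (Δ (V j (EuclideanSpace.single i 1)))) i
    have hw2 := hw₂ j
    have hw1 := hw₁ j
    calc w₂ j * ‖PP Q (r j) (D j) (WW (𝕜 := 𝕜) hq0 e' j (Δ (V j (EuclideanSpace.single i 1)))) i‖
        ≤ w₂ j * (‖Δ‖ * w₁ j) := by
          gcongr; exact h4.trans h3
      _ = 1 * (w₁ j * w₂ j) * ‖Δ‖ := by ring
      _ ≤ K * (w₁ j * w₂ j) * ‖Δ‖ := by gcongr

theorem main (P Q : ℝ≥0∞) [hP1 : Fact (1 ≤ P)] [hQ1 : Fact (1 ≤ Q)]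
    (hP : 1 < P) (hPQ : P < Q) (hQt : Q < ⊤)
    (T : lp (fun _ : ℕ => 𝕜) P →L[𝕜] lp (fun _ : ℕ => 𝕜) Q) :
    closedIdeal T ≠ {S | IsFSS S} := by
  have hQt' : Q ≠ ⊤ := hQt.ne
  have hPt : P ≠ ⊤ := (hPQ.trans_le le_top).ne
  have hQ : 1 < Q := hP.trans hPQ
  have hp0 : 0 < P.toReal := toReal_pos' P hPt
  have hq0 : 0 < Q.toReal := toReal_pos' Q hQt'
  have hpqr : P.toReal < Q.toReal := (ENNReal.toReal_lt_toReal hPt hQt').2 hPQ
  have hcast : ∀ j : ℕ, (0 : ℝ) < ((j + 1 : ℕ) : ℝ) := fun j => by positivity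
  rcases le_or_gt 2 P.toReal with hp | hp
  · -- case I
    have hq : 2 ≤ Q.toReal := by linarith
    set K : ℝ := max (CJ Q.toReal) (max (CJ P.toReal) (CJ P.toReal.conjExponent)) with hK
    have hK1 : 1 ≤ K := (one_le_CJ _).trans (le_max_left _ _)
    refine assemble P Q hP hPQ hQt' (fun j => j + 1) (fun _ => 1) (fun j => Nat.succ_pos j)
      (fun _ => one_pos) K hK1 (fun _ => 1)
      (fun j => ((j + 1 : ℕ) : ℝ) ^ (-(1 / 2 - 1 / Q.toReal))) (fun _ => one_pos)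
      (fun j => by have := hcast j; positivity) ?_ ?_ ?_ ?_ (max 1 (Ku Q.toReal)) (le_max_left _ _)
      (s := P.toReal) (t := 1) le_rfl hpqr one_pos le_rfl ?_ ?_ T
    · intro j D a
      refine (norm_JJ_le_of_two_le' Q hQt' hq (Nat.succ_pos j) a).trans ?_
      have : CJ Q.toReal ≤ K := le_max_left _ _
      gcongr
    · intro j D x
      refine (norm_PP_one_le P hP hPt x).trans ?_
      have : CJ P.toReal.conjExponent ≤ K := (le_max_right _ _).trans (le_max_right _ _)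
      gcongr
    · intro j D a
      rw [one_mul]
      refine (norm_JJ_one_le P hPt a).trans ?_
      have : CJ P.toReal ≤ K := (le_max_left _ _).trans (le_max_right _ _)
      gcongr
    · intro j D x
      have h1 := norm_PP_le_of_two_le Q hQ hQt' hq (Nat.succ_pos j) x
      have h2 : ((j + 1 : ℕ) : ℝ) ^ (-(1 / 2 - 1 / Q.toReal)) * ‖PP Q (j + 1) D x‖ ≤ ‖x‖ := by
        rw [Real.rpow_neg (hcast j).le, inv_mul_le_iff₀ (by have := hcast j; positivity)]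
        exact h1
      exact h2.trans (by nlinarith [norm_nonneg x])
    · intro δ hδ
      obtain ⟨j₀, hj₀⟩ := H1_caseI (𝕜 := 𝕜) P Q hP hPt hQt' hp hpqr hδ
      refine ⟨j₀, fun j hj D x hx => (hj₀ j hj D x hx).trans ?_⟩
      have h1 : Ku Q.toReal ≤ max 1 (Ku Q.toReal) := le_max_right _ _
      have h2 : 0 ≤ ‖x‖ ^ P.toReal := by positivity
      have h3 : Ku Q.toReal * ‖x‖ ^ P.toReal ≤ max 1 (Ku Q.toReal) * (‖x‖ ^ P.toReal
          + ‖x‖ ^ P.toReal) := by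
        gcongr
        linarith
      linarith
    · intro j D x _ σ hσ
      refine (H2_caseI P hP hPt hp x σ hσ).trans ?_
      have h1 : (1 : ℝ) ≤ max 1 (Ku Q.toReal) := le_max_left _ _
      have h2 : 0 ≤ ‖x‖ ^ P.toReal := by positivity
      nlinarith
  · -- case II
    set K : ℝ := max (CJ Q.toReal) (max (CJ Q.toReal.conjExponent) (CJ P.toReal.conjExponent))
      with hK
    have hK1 : 1 ≤ K := (one_le_CJ _).trans (le_max_left _ _)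
    set s : ℝ := P.toReal * (max Q.toReal 2 / 2) with hs
    have hC := C2_pos P.toReal
    have hCJ : 0 < CJ Q.toReal := lt_of_lt_of_le one_pos (one_le_CJ _)
    set L : ℝ := max 1 (CJ Q.toReal ^ Q.toReal * (C2 P.toReal + C2 P.toReal ^ (max Q.toReal 2 / 2))
      + C2 P.toReal) with hL
    refine assemble P Q hP hPQ hQt' (fun _ => 1) (fun j => j + 1) (fun _ => one_pos)
      (fun j => Nat.succ_pos j) K hK1
      (fun j => ((j + 1 : ℕ) : ℝ) ^ (-(1 / P.toReal - 1 / 2))) (fun _ => 1)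
      (fun j => by have := hcast j; positivity) (fun _ => one_pos)
      ?_ ?_ ?_ ?_ L (le_max_left _ _)
      (s := s) (t := P.toReal / 2) ?_ ?_ (by positivity) (by linarith) ?_ ?_ T
    · intro j D a
      refine (norm_JJ_one_le Q hQt' a).trans ?_
      have : CJ Q.toReal ≤ K := le_max_left _ _
      gcongr
    · intro j D x
      refine (norm_PP_le_of_le_two' P hP hPt hp.le (Nat.succ_pos j) x).trans ?_
      have : CJ P.toReal.conjExponent ≤ K := (le_max_right _ _).trans (le_max_right _ _)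
      gcongr
    · intro j D a
      have h1 := norm_JJ_le_of_le_two P hPt hp.le (Nat.succ_pos j) a
      have h2 : ((j + 1 : ℕ) : ℝ) ^ (-(1 / P.toReal - 1 / 2)) * ‖JJ P (j + 1) D a‖ ≤ ‖a‖ := by
        rw [Real.rpow_neg (hcast j).le, inv_mul_le_iff₀ (by have := hcast j; positivity)]
        exact h1
      exact h2.trans (by nlinarith [norm_nonneg a])
    · intro j D x
      rw [one_mul]
      refine (norm_PP_one_le Q hQ hQt' x).trans ?_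
      have : CJ Q.toReal.conjExponent ≤ K := (le_max_left _ _).trans (le_max_right _ _)
      gcongr
    · rw [hs]
      have : 2 ≤ max Q.toReal 2 := le_max_right _ _
      nlinarith
    · rw [hs]
      rcases le_total Q.toReal 2 with h | h
      · rw [max_eq_right h]; linarith
      · rw [max_eq_left h]; nlinarith
    · intro δ hδ
      obtain ⟨j₀, hj₀⟩ := H1_caseII (𝕜 := 𝕜) P Q hP hPt hQt' hp hpqr hδ
      refine ⟨j₀, fun j hj D x hx => (hj₀ j hj D x hx).trans ?_⟩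
      have h2 : 0 ≤ ‖x‖ ^ P.toReal := by positivity
      have h3 : 0 ≤ ‖x‖ ^ s := by positivity
      have hb : 0 < C2 P.toReal ^ (max Q.toReal 2 / 2) := by positivity
      have ha : 0 < CJ Q.toReal ^ Q.toReal := by positivity
      have h4 : CJ Q.toReal ^ Q.toReal * (C2 P.toReal * ‖x‖ ^ P.toReal
          + C2 P.toReal ^ (max Q.toReal 2 / 2) * ‖x‖ ^ s)
          ≤ (CJ Q.toReal ^ Q.toReal * (C2 P.toReal + C2 P.toReal ^ (max Q.toReal 2 / 2))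
            + C2 P.toReal) * (‖x‖ ^ P.toReal + ‖x‖ ^ s) := by
        have e1 : 0 ≤ CJ Q.toReal ^ Q.toReal * (C2 P.toReal * ‖x‖ ^ s) := by positivity
        have e2 : 0 ≤ CJ Q.toReal ^ Q.toReal * (C2 P.toReal ^ (max Q.toReal 2 / 2)
          * ‖x‖ ^ P.toReal) := by positivity
        have e3 : 0 ≤ C2 P.toReal * ‖x‖ ^ P.toReal := by positivity
        have e4 : 0 ≤ C2 P.toReal * ‖x‖ ^ s := by positivity
        nlinarith
      have h5 : (CJ Q.toReal ^ Q.toReal * (C2 P.toReal + C2 P.toReal ^ (max Q.toReal 2 / 2))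
            + C2 P.toReal) ≤ L := le_max_right _ _
      have h6 := mul_le_mul_of_nonneg_right h5 (add_nonneg h2 h3)
      linarith
    · intro j D x _ σ hσ
      refine (H2_caseII P hP hPt hp.le (Nat.succ_pos j) x σ hσ).trans ?_
      have h5 : C2 P.toReal ≤ L := by
        refine le_trans ?_ (le_max_right _ _)
        have : 0 ≤ CJ Q.toReal ^ Q.toReal * (C2 P.toReal + C2 P.toReal ^ (max Q.toReal 2 / 2)) := by
          positivity
        linarith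
      gcongr

end Pool.Agent.Work.MP_4336d9_an
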