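import Mathlib

/-! Milman's flat vector: every `n`-dimensional space of functions vanishing at infinity contains a
function of sup norm one whose modulus is one at `n` points at least. -/

open Finset Filter Topology
open scoped ENNReal

namespace Pool.Agent.Work.MP_4336d9_an

variable {𝕜 : Type*} [RCLike 𝕜]

lemma bdd_of_vanish {I : Type*} {g : I → 𝕜} (h : {i | (1 : ℝ) ≤ ‖g i‖}.Finite) :
    ∃ B : ℝ, 0 ≤ B ∧ ∀ i, ‖g i‖ ≤ B := by
  refine ⟨1 + ∑ i ∈ h.toFinset, ‖g i‖, by positivity, fun i => ?_⟩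
  by_cases hi : (1 : ℝ) ≤ ‖g i‖
  · have h1 : i ∈ h.toFinset := by simpa using hi
    have h2 := Finset.single_le_sum (f := fun i => ‖g i‖) (fun _ _ => norm_nonneg _) h1
    linarith
  · have h2 : 0 ≤ ∑ i ∈ h.toFinset, ‖g i‖ := Finset.sum_nonneg fun _ _ => norm_nonneg _
    push Not at hi
    linarith

lemma exists_flat_aux {I G : Type*} [NormedAddCommGroup G] [InnerProductSpace 𝕜 G]
    [FiniteDimensional 𝕜 G] (Φ : G →ₗ[𝕜] (I → 𝕜)) (hinj : Function.Injective Φ)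
    (h0 : ∀ c, ∀ ε : ℝ, 0 < ε → {i | ε ≤ ‖Φ c i‖}.Finite) :
    ∃ c, (∀ i, ‖Φ c i‖ ≤ 1) ∧ ∃ s : Finset I, Module.finrank 𝕜 G ≤ s.card ∧
      ∀ i ∈ s, ‖Φ c i‖ = 1 := by
  classical
  have hbdd : ∀ c, ∃ B : ℝ, 0 ≤ B ∧ ∀ i, ‖Φ c i‖ ≤ B := fun c => bdd_of_vanish (h0 c 1 one_pos)
  have hmem : ∀ c, Memℓp (Φ c) ∞ := by
    intro c
    obtain ⟨B, -, hB⟩ := hbdd c
    exact memℓp_infty ⟨B, by rintro _ ⟨i, rfl⟩; exact hB i⟩
  let Ψ : G →ₗ[𝕜] lp (fun _ : I => 𝕜) ∞ :=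
    { toFun := fun c => ⟨Φ c, hmem c⟩
      map_add' := by intro a b; ext i; simp
      map_smul' := by intro a b; ext i; simp }
  have hker : LinearMap.ker Ψ = ⊥ := by
    rw [LinearMap.ker_eq_bot']
    intro c hc
    apply hinj
    rw [map_zero]
    funext i
    have := congrArg (fun f : lp (fun _ : I => 𝕜) ∞ => f i) hc
    simpa [Ψ] using this
  obtain ⟨K, hK0, hK⟩ := Ψ.exists_antilipschitzWith hker
  set S : Set G := {c | ∀ i, ‖Φ c i‖ ≤ 1} with hS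
  have hcont : ∀ i, Continuous fun c => Φ c i := by
    intro i
    exact ((LinearMap.proj i : (I → 𝕜) →ₗ[𝕜] 𝕜) ∘ₗ Φ).continuous_of_finiteDimensional
  have : ProperSpace G := FiniteDimensional.proper_rclike 𝕜 G
  have hSc : IsCompact S := by
    refine Metric.isCompact_of_isClosed_isBounded ?_ ?_
    · rw [hS, Set.ofPred_forall]
      exact isClosed_iInter fun i => isClosed_le (hcont i).norm continuous_const
    · rw [Metric.isBounded_iff_subset_closedBall 0]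
      refine ⟨K, fun c hc => ?_⟩
      rw [mem_closedBall_zero_iff]
      have h1 := hK.le_mul_dist c 0
      rw [dist_zero_right, map_zero, dist_zero_right] at h1
      have h2 : ‖Ψ c‖ ≤ 1 := lp.norm_le_of_forall_le zero_le_one fun i => hc i
      calc ‖c‖ ≤ K * ‖Ψ c‖ := h1
        _ ≤ K * 1 := by gcongr
        _ = K := mul_one _
  obtain ⟨c, hcS, hmax⟩ := hSc.exists_isMaxOn ⟨0, by intro i; simp⟩
    (continuous_norm.continuousOn (s := S))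
  refine ⟨c, hcS, ?_⟩
  have hfin : {i | (1 : ℝ) ≤ ‖Φ c i‖}.Finite := h0 c 1 one_pos
  refine ⟨hfin.toFinset, ?_, fun i hi => le_antisymm (hcS i) (by simpa using hi)⟩
  by_contra hcard
  push Not at hcard
  -- a direction
  have hexd : ∃ d : G, d ≠ 0 ∧ ∀ i ∈ hfin.toFinset, Φ d i = 0 := by
    let R : G →ₗ[𝕜] (hfin.toFinset → 𝕜) := LinearMap.pi fun i => (LinearMap.proj (i : I)) ∘ₗ Φ
    have h1 : LinearMap.ker R ≠ ⊥ := by
      apply LinearMap.ker_ne_bot_of_finrank_lt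
      simpa using hcard
    obtain ⟨d, hd, hd0⟩ := Submodule.exists_mem_ne_zero_of_ne_bot h1
    refine ⟨d, hd0, fun i hi => ?_⟩
    have := congrFun (LinearMap.mem_ker.1 hd) ⟨i, hi⟩
    simpa [R] using this
  obtain ⟨d, hd0, hd⟩ := hexd
  obtain ⟨B, hB0, hB⟩ := hbdd d
  have hfin2 : {i | (1 / 2 : ℝ) ≤ ‖Φ c i‖}.Finite := h0 c (1 / 2) (by norm_num)
  have hev : ∀ᶠ t : ℝ in 𝓝 (0 : ℝ), ∀ i ∈ hfin2.toFinset \ hfin.toFinset,
      ‖Φ c i + (t : 𝕜) * Φ d i‖ < 1 := by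
    rw [Filter.eventually_all_finset]
    intro i hi
    have h1 : Tendsto (fun t : ℝ => ‖Φ c i + (t : 𝕜) * Φ d i‖) (𝓝 0)
        (𝓝 ‖Φ c i + ((0 : ℝ) : 𝕜) * Φ d i‖) := by
      have : Continuous (fun t : ℝ => ‖Φ c i + (t : 𝕜) * Φ d i‖) := by fun_prop
      exact this.tendsto 0
    have h2 : ‖Φ c i + ((0 : ℝ) : 𝕜) * Φ d i‖ < 1 := by
      rw [Finset.mem_sdiff] at hi
      have := hi.2
      simp only [Set.Finite.mem_toFinset, Set.mem_ofPred_eq, not_le] at this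
      simpa using this
    exact h1.eventually_lt_const h2
  have hev2 : ∀ᶠ t : ℝ in 𝓝 (0 : ℝ), |t| * B < 1 / 2 := by
    have h1 : Tendsto (fun t : ℝ => |t| * B) (𝓝 0) (𝓝 (|(0 : ℝ)| * B)) := by
      have : Continuous (fun t : ℝ => |t| * B) := by fun_prop
      exact this.tendsto 0
    exact h1.eventually_lt_const (by simp)
  have hboth := hev.and hev2
  rw [Metric.eventually_nhds_iff] at hboth
  obtain ⟨δ, hδ, hboth⟩ := hboth
  have key : ∀ t : ℝ, |t| < δ → c + (t : 𝕜) • d ∈ S := by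
    intro t ht i
    obtain ⟨h1, h2⟩ := hboth (y := t) (by simpa using ht)
    rw [map_add, map_smul, Pi.add_apply, Pi.smul_apply, smul_eq_mul]
    by_cases hi : i ∈ hfin.toFinset
    · rw [hd i hi, mul_zero, add_zero]; exact hcS i
    · by_cases hi2 : i ∈ hfin2.toFinset
      · exact (h1 i (Finset.mem_sdiff.2 ⟨hi2, hi⟩)).le
      · simp only [Set.Finite.mem_toFinset, Set.mem_ofPred_eq, not_le] at hi2
        calc ‖Φ c i + (t : 𝕜) * Φ d i‖ ≤ ‖Φ c i‖ + ‖(t : 𝕜) * Φ d i‖ := norm_add_le _ _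
          _ = ‖Φ c i‖ + |t| * ‖Φ d i‖ := by rw [norm_mul, RCLike.norm_ofReal]
          _ ≤ ‖Φ c i‖ + |t| * B := by gcongr; exact hB i
          _ ≤ 1 := by linarith
  have ht1 := key (δ / 2) (by rw [abs_of_pos (by positivity)]; linarith)
  have ht2 := key (-(δ / 2)) (by rw [abs_neg, abs_of_pos (by positivity)]; linarith)
  have hm1 : ‖c + ((δ / 2 : ℝ) : 𝕜) • d‖ ≤ ‖c‖ := hmax ht1
  have hm2 : ‖c - ((δ / 2 : ℝ) : 𝕜) • d‖ ≤ ‖c‖ := by
    have := hmax ht2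
    have h3 : c + ((-(δ / 2) : ℝ) : 𝕜) • d = c - ((δ / 2 : ℝ) : 𝕜) • d := by
      rw [RCLike.ofReal_neg, neg_smul, sub_eq_add_neg]
    rw [h3] at this
    exact this
  have hpar := parallelogram_law_with_norm 𝕜 c (((δ / 2 : ℝ) : 𝕜) • d)
  have hpos : 0 < ‖((δ / 2 : ℝ) : 𝕜) • d‖ := by
    rw [norm_smul, RCLike.norm_ofReal, abs_of_pos (by positivity)]
    have := norm_pos_iff.2 hd0
    positivity
  nlinarith [norm_nonneg (c + ((δ / 2 : ℝ) : 𝕜) • d), norm_nonneg (c - ((δ / 2 : ℝ) : 𝕜) • d),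
    norm_nonneg c]

lemma exists_flat {I G : Type*} [AddCommGroup G] [Module 𝕜 G] [FiniteDimensional 𝕜 G]
    (Φ : G →ₗ[𝕜] (I → 𝕜)) (hinj : Function.Injective Φ)
    (h0 : ∀ c, ∀ ε : ℝ, 0 < ε → {i | ε ≤ ‖Φ c i‖}.Finite) :
    ∃ c, (∀ i, ‖Φ c i‖ ≤ 1) ∧ ∃ s : Finset I, Module.finrank 𝕜 G ≤ s.card ∧
      ∀ i ∈ s, ‖Φ c i‖ = 1 := by
  let e : EuclideanSpace 𝕜 (Fin (Module.finrank 𝕜 G)) ≃ₗ[𝕜] G :=
    (WithLp.linearEquiv 2 𝕜 (Fin (Module.finrank 𝕜 G) → 𝕜)).trans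
      (Module.finBasis 𝕜 G).equivFun.symm
  obtain ⟨c, hc, s, hs, hs1⟩ := exists_flat_aux (Φ ∘ₗ (e : EuclideanSpace 𝕜 (Fin (Module.finrank 𝕜 G)) →ₗ[𝕜] G))
    (hinj.comp e.injective) (fun c ε hε => h0 (e c) ε hε)
  refine ⟨e c, hc, s, ?_, hs1⟩
  rwa [finrank_euclideanSpace_fin] at hs

end Pool.Agent.Work.MP_4336d9_an
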