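import Pool.Agent.Work.MP_4336d9_an.Defs
import Pool.Agent.Work.MP_4336d9_an.Flat

/-! Block diagonal operators between `ℓ_p` sums and a criterion for them to be finitely strictly
singular. -/

open Finset Filter Topology
open scoped ENNReal

namespace Pool.Agent.Work.MP_4336d9_an

lemma tsum_rpow_le {ι : Type*} {f : ι → ℝ} (hf0 : ∀ i, 0 ≤ f i) (hf : Summable f) {s : ℝ}
    (hs : 1 ≤ s) : Summable (fun i => f i ^ s) ∧ ∑' i, f i ^ s ≤ (∑' i, f i) ^ s := by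
  set Z := ∑' i, f i with hZ
  have hZ0 : 0 ≤ Z := tsum_nonneg hf0
  have h1 : ∀ i, f i ^ s ≤ f i * Z ^ (s - 1) := by
    intro i
    rcases (hf0 i).eq_or_lt with h | h
    · rw [← h, Real.zero_rpow (by linarith), zero_mul]
    · have h2 : f i ^ s = f i * f i ^ (s - 1) := by
        rw [Real.rpow_sub_one h.ne']; field_simp
      rw [h2]
      have h3 : f i ≤ Z := hf.le_tsum i fun j _ => hf0 j
      gcongr
  have h2 : Summable (fun i => f i * Z ^ (s - 1)) := hf.mul_right _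
  have h3 : Summable (fun i => f i ^ s) :=
    Summable.of_nonneg_of_le (fun i => Real.rpow_nonneg (hf0 i) _) h1 h2
  refine ⟨h3, (h3.tsum_le_tsum h1 h2).trans (le_of_eq ?_)⟩
  rw [tsum_mul_right, ← hZ]
  rcases hZ0.eq_or_lt with h | h
  · rw [← h, Real.zero_rpow (by linarith : s ≠ 0), zero_mul]
  · rw [Real.rpow_sub_one h.ne']; field_simp

lemma rpow_sum_le {ι : Type*} (J : Finset ι) {g : ι → ℝ} (hg : ∀ i, 0 ≤ g i) {t : ℝ}
    (ht : 0 < t) (ht1 : t ≤ 1) : (∑ i ∈ J, g i) ^ t ≤ ∑ i ∈ J, g i ^ t := by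
  classical
  induction J using Finset.induction_on with
  | empty => simp [Real.zero_rpow ht.ne']
  | insert i J hi ih =>
    rw [Finset.sum_insert hi, Finset.sum_insert hi]
    refine (Real.rpow_add_le_add_rpow (hg i) (Finset.sum_nonneg fun j _ => hg j) ht.le ht1).trans ?_
    linarith

variable {𝕜 : Type*} [RCLike 𝕜]
  {E F : ℕ → Type*} [∀ j, NormedAddCommGroup (E j)] [∀ j, NormedSpace 𝕜 (E j)]
  [∀ j, NormedAddCommGroup (F j)] [∀ j, NormedSpace 𝕜 (F j)]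
  {P Q : ℝ≥0∞} [hP1 : Fact (1 ≤ P)] [hQ1 : Fact (1 ≤ Q)]

omit hP1 in
lemma lp_rpow_tsum_le (hP : 0 < P.toReal) (x : lp E P) {s : ℝ} (hs : P.toReal ≤ s) :
    Summable (fun j => ‖x j‖ ^ s) ∧ ∑' j, ‖x j‖ ^ s ≤ ‖x‖ ^ s := by
  have h0 : Summable (fun j => ‖x j‖ ^ P.toReal) := (lp.memℓp x).summable hP
  have h1 := tsum_rpow_le (fun j => Real.rpow_nonneg (norm_nonneg (x j)) _) h0
    (s := s / P.toReal) (by rw [le_div_iff₀ hP]; linarith)
  have h2 : ∀ j, (‖x j‖ ^ P.toReal) ^ (s / P.toReal) = ‖x j‖ ^ s := by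
    intro j
    rw [← Real.rpow_mul (norm_nonneg _), mul_div_cancel₀ _ hP.ne']
  simp only [h2] at h1
  rw [← lp.norm_rpow_eq_tsum hP x] at h1
  have h3 : (‖x‖ ^ P.toReal) ^ (s / P.toReal) = ‖x‖ ^ s := by
    rw [← Real.rpow_mul (lp.norm_nonneg' x), mul_div_cancel₀ _ hP.ne']
  rwa [h3] at h1

/-- The block diagonal operator. -/
noncomputable def bsum (hP : 0 < P.toReal) (hQ : 0 < Q.toReal) (hPQ : P ≤ Q)
    (hPQr : P.toReal ≤ Q.toReal)
    (S : ∀ j, E j →L[𝕜] F j) (C : ℝ) (hC0 : 0 ≤ C) (hC : ∀ j x, ‖S j x‖ ≤ C * ‖x‖) :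
    lp E P →L[𝕜] lp F Q :=
  LinearMap.mkContinuous
    { toFun := fun x => ⟨fun j => S j (x j), by
        refine Memℓp.mono (g := fun j => C * ‖x j‖) ?_ (fun j => hC j (x j))
        exact (((lp.memℓp x).of_exponent_ge hPQ).norm).const_mul C⟩
      map_add' := by
        intro x y; ext j : 2; simp
      map_smul' := by
        intro c x; ext j : 2; simp }
    C (by
      intro x
      refine lp.norm_le_of_tsum_le hQ (by positivity) ?_
      obtain ⟨h1, h2⟩ := lp_rpow_tsum_le hP x hPQr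
      have h3 : ∀ j, ‖S j (x j)‖ ^ Q.toReal ≤ C ^ Q.toReal * ‖x j‖ ^ Q.toReal := by
        intro j
        rw [← Real.mul_rpow hC0 (norm_nonneg _)]
        exact Real.rpow_le_rpow (norm_nonneg _) (hC j (x j)) hQ.le
      have h4 : Summable (fun j => C ^ Q.toReal * ‖x j‖ ^ Q.toReal) := h1.mul_left _
      have h5 : Summable (fun j => ‖S j (x j)‖ ^ Q.toReal) :=
        Summable.of_nonneg_of_le (fun _ => by positivity) h3 h4
      calc ∑' j, ‖S j (x j)‖ ^ Q.toReal ≤ ∑' j, C ^ Q.toReal * ‖x j‖ ^ Q.toReal :=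
            h5.tsum_le_tsum h3 h4
        _ = C ^ Q.toReal * ∑' j, ‖x j‖ ^ Q.toReal := tsum_mul_left
        _ ≤ C ^ Q.toReal * ‖x‖ ^ Q.toReal := by gcongr
        _ = (C * ‖x‖) ^ Q.toReal := by rw [Real.mul_rpow hC0 (norm_nonneg _)])

@[simp] lemma bsum_apply (hP : 0 < P.toReal) (hQ : 0 < Q.toReal) (hPQ : P ≤ Q)
    (hPQr : P.toReal ≤ Q.toReal)
    (S : ∀ j, E j →L[𝕜] F j) (C : ℝ) (hC0 : 0 ≤ C) (hC : ∀ j x, ‖S j x‖ ≤ C * ‖x‖) (x : lp E P)
    (j : ℕ) : bsum hP hQ hPQ hPQr S C hC0 hC x j = S j (x j) := rfl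

theorem isFSS_bsum (hP : 0 < P.toReal) (hQ : 0 < Q.toReal) (hPQ : P ≤ Q)
    (hPQr : P.toReal ≤ Q.toReal)
    (S : ∀ j, E j →L[𝕜] F j) (C : ℝ) (hC0 : 0 ≤ C) (hC : ∀ j x, ‖S j x‖ ≤ C * ‖x‖)
    (D : ℕ → ℕ) (a : ∀ j, E j →L[𝕜] EuclideanSpace 𝕜 (Fin (D j)))
    {L : ℝ} (hL : 0 < L)
    (ha : ∀ j x i, ‖a j x i‖ ≤ L * ‖x‖)
    (hker : ∀ j x, (∀ i, a j x i = 0) → S j x = 0)
    {s t : ℝ} (hps : P.toReal ≤ s) (hsq : s < Q.toReal) (ht : 0 < t) (ht1 : t ≤ 1)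
    (H1 : ∀ δ : ℝ, 0 < δ → ∃ j₀ : ℕ, ∀ j, j₀ ≤ j → ∀ x, (∀ i, ‖a j x i‖ ≤ 1) →
      ‖S j x‖ ^ Q.toReal ≤ δ * ‖x‖ ^ Q.toReal + L * (‖x‖ ^ P.toReal + ‖x‖ ^ s))
    (H2 : ∀ j x, (∀ i, ‖a j x i‖ ≤ 1) → ∀ σ : Finset (Fin (D j)), (∀ i ∈ σ, ‖a j x i‖ = 1) →
      (σ.card : ℝ) ^ t ≤ L * ‖x‖ ^ P.toReal) :
    IsFSS (bsum hP hQ hPQ hPQr S C hC0 hC) := by
  classical
  apply isFSS_of_prof
  intro ε hε
  obtain ⟨j₀, hj₀⟩ := H1 (ε ^ Q.toReal / 2) (by positivity)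
  -- the radius
  obtain ⟨R, hR1, hR⟩ : ∃ R : ℝ, 1 ≤ R ∧ 2 * L * R ^ (s - Q.toReal) ≤ ε ^ Q.toReal / 2 := by
    have h1 : Tendsto (fun R : ℝ => 2 * L * R ^ (-(Q.toReal - s))) atTop (𝓝 (2 * L * 0)) :=
      (tendsto_rpow_neg_atTop (by linarith)).const_mul _
    rw [mul_zero] at h1
    have h2 := (h1.eventually_le_const (by positivity : (0 : ℝ) < ε ^ Q.toReal / 2)).and
      (eventually_ge_atTop (1 : ℝ))
    obtain ⟨R, hR, hR1⟩ := h2.exists
    refine ⟨R, hR1, ?_⟩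
    rwa [neg_sub] at hR
  have hR0 : 0 < R := by linarith
  obtain ⟨n₁, hn₁⟩ : ∃ n₁ : ℕ, L * R ^ P.toReal ≤ (n₁ : ℝ) ^ t := by
    obtain ⟨n₁, hn₁⟩ := exists_nat_ge ((L * R ^ P.toReal) ^ (1 / t))
    refine ⟨n₁, ?_⟩
    have h1 := Real.rpow_le_rpow (by positivity) hn₁ ht.le
    rwa [← Real.rpow_mul (by positivity), one_div_mul_cancel ht.ne', Real.rpow_one] at h1
  set d₀ : ℕ := Fintype.card (Σ j : Fin j₀, Fin (D j)) with hd₀
  refine ⟨n₁ + 1 + d₀, fun f => ?_⟩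
  let R₀ : (Fin (n₁ + 1 + d₀) → 𝕜) →ₗ[𝕜] ((Σ j : Fin j₀, Fin (D j)) → 𝕜) :=
    { toFun := fun c k => a k.1 (f c k.1) k.2
      map_add' := by intro c d; funext k; simp
      map_smul' := by intro c d; funext k; simp }
  have hfr : n₁ + 1 ≤ Module.finrank 𝕜 (LinearMap.ker R₀) := by
    have h1 := R₀.finrank_range_add_finrank_ker
    have h2 : Module.finrank 𝕜 (LinearMap.range R₀) ≤ d₀ := by
      refine (Submodule.finrank_le _).trans (le_of_eq ?_)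
      rw [Module.finrank_fintype_fun_eq_card]
    rw [Module.finrank_fin_fun] at h1
    omega
  let Φ : LinearMap.ker R₀ →ₗ[𝕜] ((Σ j : ℕ, Fin (D j)) → 𝕜) :=
    { toFun := fun c k => a k.1 (f c k.1) k.2
      map_add' := by intro c d; funext k; simp
      map_smul' := by intro c d; funext k; simp }
  by_cases hinj : Function.Injective Φ
  swap
  · have : ∃ c, Φ c = 0 ∧ c ≠ 0 := by
      by_contra hcon
      push Not at hcon
      exact hinj ((injective_iff_map_eq_zero Φ).2 hcon)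
    obtain ⟨c, hc, hc0⟩ := this
    refine ⟨c, fun h => hc0 (Subtype.ext h), ?_⟩
    have h0 : bsum hP hQ hPQ hPQr S C hC0 hC (f c) = 0 := by
      ext j : 2
      rw [bsum_apply]
      simpa using hker j (f c j) (fun i => congrFun hc ⟨j, i⟩)
    rw [ContinuousLinearMap.coe_coe, h0, norm_zero]
    positivity
  -- vanishing at infinity
  have hvan : ∀ c, ∀ ε' : ℝ, 0 < ε' → {k | ε' ≤ ‖Φ c k‖}.Finite := by
    intro c ε' hε'
    have hsum : Summable (fun j => ‖(f c) j‖ ^ P.toReal) := (lp.memℓp (f c)).summable hP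
    have h1 : ∀ᶠ j in cofinite, ‖(f c) j‖ ^ P.toReal < (ε' / L) ^ P.toReal :=
      hsum.tendsto_cofinite_zero.eventually_lt_const (by positivity)
    have h2 : {j | ¬ ‖(f c) j‖ ^ P.toReal < (ε' / L) ^ P.toReal}.Finite := by
      simpa [Filter.eventually_cofinite] using h1
    refine (((h2.toFinset.sigma (fun j => (Finset.univ : Finset (Fin (D j))))).finite_toSet)).subset ?_
    rintro ⟨j, i⟩ hk
    simp only [Finset.coe_sigma, Set.mem_sigma_iff, Finset.mem_coe, Set.Finite.mem_toFinset,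
      Finset.mem_univ, and_true, Set.mem_ofPred_eq, not_lt]
    have hk' : ε' ≤ ‖a j (f c j) i‖ := hk
    have h3 : ε' / L ≤ ‖(f c) j‖ := by
      rw [div_le_iff₀ hL, mul_comm]
      exact hk'.trans (ha j _ i)
    exact Real.rpow_le_rpow (by positivity) h3 hP.le
  obtain ⟨c, hc1, σ, hσ, hσ1⟩ := exists_flat Φ hinj hvan
  have hσpos : 0 < σ.card := by omega
  obtain ⟨k₀, hk₀⟩ := Finset.card_pos.1 hσpos
  have hc0 : c ≠ 0 := by
    rintro rfl
    have := hσ1 k₀ hk₀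
    simp at this
  refine ⟨c, fun h => hc0 (Subtype.ext h), ?_⟩
  set x : lp E P := f c with hx
  have hx1 : ∀ j i, ‖a j (x j) i‖ ≤ 1 := fun j i => hc1 ⟨j, i⟩
  -- lower bound for the norm of x
  have hlow : (n₁ : ℝ) ^ t ≤ L * ‖x‖ ^ P.toReal := by
    have h1 : ((σ.card : ℕ) : ℝ) = ∑ j ∈ σ.image Sigma.fst,
        (((Finset.univ.filter (fun i : Fin (D j) => (⟨j, i⟩ : Σ j, Fin (D j)) ∈ σ)).card : ℕ) : ℝ) := by
      rw [Finset.card_eq_sum_card_image Sigma.fst σ]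
      push_cast
      refine Finset.sum_congr rfl fun j _ => ?_
      congr 1
      symm
      refine Finset.card_bij (fun i _ => (⟨j, i⟩ : Σ j, Fin (D j))) ?_ ?_ ?_
      · intro i hi
        rw [Finset.mem_filter] at hi ⊢
        exact ⟨hi.2, rfl⟩
      · intro i _ i' _ h
        simpa using h
      · rintro ⟨j', i⟩ hi
        rw [Finset.mem_filter] at hi
        obtain ⟨hi1, hi2⟩ := hi
        simp only at hi2
        subst hi2
        exact ⟨i, by rw [Finset.mem_filter]; exact ⟨Finset.mem_univ _, hi1⟩, rfl⟩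
    have h2 : (n₁ : ℝ) ^ t ≤ (σ.card : ℝ) ^ t := by
      refine Real.rpow_le_rpow (by positivity) ?_ ht.le
      have : n₁ ≤ σ.card := by omega
      exact_mod_cast this
    refine h2.trans ?_
    rw [h1]
    refine (rpow_sum_le _ (fun _ => by positivity) ht ht1).trans ?_
    have h3 : ∑ j ∈ σ.image Sigma.fst,
        (((Finset.univ.filter (fun i : Fin (D j) => (⟨j, i⟩ : Σ j, Fin (D j)) ∈ σ)).card : ℕ) : ℝ) ^ t
        ≤ ∑ j ∈ σ.image Sigma.fst, L * ‖x j‖ ^ P.toReal := by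
      refine Finset.sum_le_sum fun j _ => H2 j (x j) (hx1 j) _ fun i hi => ?_
      rw [Finset.mem_filter] at hi
      exact hσ1 _ hi.2
    refine h3.trans ?_
    rw [← Finset.mul_sum]
    gcongr
    exact lp.sum_rpow_le_norm_rpow hP x _
  have hxR : R ≤ ‖x‖ := by
    have h1 : L * R ^ P.toReal ≤ L * ‖x‖ ^ P.toReal := hn₁.trans hlow
    have h2 : R ^ P.toReal ≤ ‖x‖ ^ P.toReal := le_of_mul_le_mul_left h1 hL
    exact (Real.rpow_le_rpow_iff hR0.le (norm_nonneg _) hP).1 h2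
  have hx0 : 0 < ‖x‖ := by linarith
  -- the estimate
  have hterm : ∀ j, ‖S j (x j)‖ ^ Q.toReal ≤ ε ^ Q.toReal / 2 * ‖x j‖ ^ Q.toReal
      + L * (‖x j‖ ^ P.toReal + ‖x j‖ ^ s) := by
    intro j
    rcases lt_or_ge j j₀ with h | h
    · have h1 : S j (x j) = 0 := by
        apply hker
        intro i
        have := congrFun (LinearMap.mem_ker.1 c.2) ⟨⟨j, h⟩, i⟩
        exact this
      rw [h1, norm_zero, Real.zero_rpow hQ.ne']
      positivity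
    · exact hj₀ j h (x j) (hx1 j)
  obtain ⟨hsq1, hsq2⟩ := lp_rpow_tsum_le hP x hPQr
  obtain ⟨hsp1, hsp2⟩ := lp_rpow_tsum_le hP x le_rfl
  obtain ⟨hss1, hss2⟩ := lp_rpow_tsum_le hP x hps
  have hfin : ‖bsum hP hQ hPQ hPQr S C hC0 hC x‖ ^ Q.toReal ≤ (ε * ‖x‖) ^ Q.toReal := by
    rw [lp.norm_rpow_eq_tsum hQ]
    have h1 : Summable (fun j => ε ^ Q.toReal / 2 * ‖x j‖ ^ Q.toReal
      + L * (‖x j‖ ^ P.toReal + ‖x j‖ ^ s)) :=
      (hsq1.mul_left _).add ((hsp1.add hss1).mul_left _)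
    have h2 : Summable (fun j => ‖S j (x j)‖ ^ Q.toReal) :=
      Summable.of_nonneg_of_le (fun _ => by positivity) hterm h1
    calc ∑' j, ‖bsum hP hQ hPQ hPQr S C hC0 hC x j‖ ^ Q.toReal
        ≤ ∑' j, (ε ^ Q.toReal / 2 * ‖x j‖ ^ Q.toReal
          + L * (‖x j‖ ^ P.toReal + ‖x j‖ ^ s)) := h2.tsum_le_tsum hterm h1
      _ = ε ^ Q.toReal / 2 * ∑' j, ‖x j‖ ^ Q.toReal
          + L * (∑' j, ‖x j‖ ^ P.toReal + ∑' j, ‖x j‖ ^ s) := by
          rw [(hsq1.mul_left _).tsum_add ((hsp1.add hss1).mul_left _), tsum_mul_left,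
            tsum_mul_left, hsp1.tsum_add hss1]
      _ ≤ ε ^ Q.toReal / 2 * ‖x‖ ^ Q.toReal + L * (‖x‖ ^ P.toReal + ‖x‖ ^ s) := by gcongr
      _ ≤ ε ^ Q.toReal / 2 * ‖x‖ ^ Q.toReal + L * (‖x‖ ^ s + ‖x‖ ^ s) := by
          gcongr
          linarith
      _ = ε ^ Q.toReal / 2 * ‖x‖ ^ Q.toReal
          + 2 * L * ‖x‖ ^ (s - Q.toReal) * ‖x‖ ^ Q.toReal := by
          have : ‖x‖ ^ s = ‖x‖ ^ (s - Q.toReal) * ‖x‖ ^ Q.toReal := by
            rw [← Real.rpow_add hx0]; congr 1; ring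
          rw [this]; ring
      _ ≤ ε ^ Q.toReal / 2 * ‖x‖ ^ Q.toReal
          + (ε ^ Q.toReal / 2) * ‖x‖ ^ Q.toReal := by
          have h3 : ‖x‖ ^ (s - Q.toReal) ≤ R ^ (s - Q.toReal) :=
            Real.rpow_le_rpow_of_nonpos hR0 hxR (by linarith)
          have h4 : 2 * L * ‖x‖ ^ (s - Q.toReal) ≤ ε ^ Q.toReal / 2 :=
            le_trans (by gcongr) hR
          gcongr
      _ = (ε * ‖x‖) ^ Q.toReal := by
          rw [Real.mul_rpow hε.le (norm_nonneg _)]; ring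
  rw [ContinuousLinearMap.coe_coe]
  exact (Real.rpow_le_rpow_iff (norm_nonneg _) (by positivity) hQ).1 hfin

end Pool.Agent.Work.MP_4336d9_an
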