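import Pool.Agent.Work.MP_4336d9_an.Moments

/-! The block operators `J : ℓ₂^D → ℓ_u(Ω)` and `P : ℓ_u(Ω) → ℓ₂^D`. -/

open Finset
open scoped ENNReal

namespace Pool.Agent.Work.MP_4336d9_an

variable {𝕜 : Type*} [RCLike 𝕜]

/-- The variable `∑ a_i ξ_i`. -/
noncomputable def YY (r D : ℕ) (a : Fin D → 𝕜) (ω : Om r D) : 𝕜 :=
  ∑ i, a i * ((sg r (ω i) : ℝ) : 𝕜)

/-- The normalized moment. -/
noncomputable def Mom (u : ℝ) (r D : ℕ) (a : Fin D → 𝕜) : ℝ :=
  (r / NN r D) * ∑ ω : Om r D, ‖YY r D a ω‖ ^ u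

lemma Mom_nonneg (u : ℝ) (r D : ℕ) (a : Fin D → 𝕜) : 0 ≤ Mom u r D a := by
  unfold Mom NN; positivity

lemma re_YY (r D : ℕ) (a : Fin D → 𝕜) (ω : Om r D) :
    RCLike.re (YY r D a ω) = ∑ i, RCLike.re (a i) * sg r (ω i) := by
  unfold YY
  rw [map_sum]
  refine Finset.sum_congr rfl fun i _ => ?_
  rw [mul_comm (a i), RCLike.re_ofReal_mul, mul_comm]

lemma im_YY (r D : ℕ) (a : Fin D → 𝕜) (ω : Om r D) :
    RCLike.im (YY r D a ω) = ∑ i, RCLike.im (a i) * sg r (ω i) := by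
  unfold YY
  rw [map_sum]
  refine Finset.sum_congr rfl fun i _ => ?_
  rw [mul_comm (a i), RCLike.im_ofReal_mul, mul_comm]

lemma norm_le_re_add_im (z : 𝕜) : ‖z‖ ≤ |RCLike.re z| + |RCLike.im z| := by
  have h := RCLike.norm_sq_eq_def (z := z)
  have h1 : ‖z‖ ^ 2 ≤ (|RCLike.re z| + |RCLike.im z|) ^ 2 := by
    rw [h]
    nlinarith [abs_nonneg (RCLike.re z), abs_nonneg (RCLike.im z), sq_abs (RCLike.re z),
      sq_abs (RCLike.im z), mul_nonneg (abs_nonneg (RCLike.re z)) (abs_nonneg (RCLike.im z))]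
  exact (pow_le_pow_iff_left₀ (norm_nonneg _) (by positivity) (by norm_num)).1 h1

lemma norm_rpow_le (z : 𝕜) {u : ℝ} (hu : 0 ≤ u) :
    ‖z‖ ^ u ≤ 2 ^ u * (|RCLike.re z| ^ u + |RCLike.im z| ^ u) := by
  have h1 := norm_le_re_add_im z
  have h2 : ‖z‖ ≤ 2 * max |RCLike.re z| |RCLike.im z| := by
    have := le_max_left |RCLike.re z| |RCLike.im z|
    have := le_max_right |RCLike.re z| |RCLike.im z|
    linarith
  have h3 : ‖z‖ ^ u ≤ 2 ^ u * (max |RCLike.re z| |RCLike.im z|) ^ u := by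
    rw [← Real.mul_rpow (by norm_num) (by positivity)]
    exact Real.rpow_le_rpow (norm_nonneg _) h2 hu
  refine h3.trans ?_
  gcongr
  have h4 := Real.rpow_nonneg (abs_nonneg (RCLike.re z)) u
  have h5 := Real.rpow_nonneg (abs_nonneg (RCLike.im z)) u
  rcases max_choice |RCLike.re z| |RCLike.im z| with h | h <;> rw [h] <;> linarith

lemma norm_YY_zero (r D : ℕ) (ω : Om r D) : YY r D (0 : Fin D → 𝕜) ω = 0 := by
  simp [YY]

/-- The constant of the moment estimate. -/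
noncomputable def Ku (u : ℝ) : ℝ := 2 ^ u * (2 * Cm u)

lemma Ku_pos (u : ℝ) : 0 < Ku u := by
  have := Cm_pos u
  unfold Ku; positivity

lemma Mom_le_of_max {u : ℝ} (hu : 2 ≤ u) {r D : ℕ} (hr : 0 < r) (a : Fin D → 𝕜) {m : ℝ}
    (hm : 0 < m) (ha : ∀ i, ‖a i‖ ≤ m) (hA : (∑ i, ‖a i‖ ^ 2) / r ≤ m ^ 2) :
    Mom u r D a ≤ Ku u * (∑ i, ‖a i‖ ^ 2) * m ^ (u - 2) := by
  have hr' : (0 : ℝ) < r := by exact_mod_cast hr
  have hN := NN_pos hr D
  have hre : ∀ i, |RCLike.re (a i)| ≤ m := fun i => (RCLike.abs_re_le_norm _).trans (ha i)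
  have him : ∀ i, |RCLike.im (a i)| ≤ m := fun i => (RCLike.abs_im_le_norm _).trans (ha i)
  have hsq : ∑ i, ‖a i‖ ^ 2 = ∑ i, RCLike.re (a i) ^ 2 + ∑ i, RCLike.im (a i) ^ 2 := by
    rw [← Finset.sum_add_distrib]
    refine Finset.sum_congr rfl fun i _ => ?_
    rw [RCLike.norm_sq_eq_def]; ring
  have h1 := sum_abs_rpow_le hu hr (fun i => RCLike.re (a i)) hm hre (by
    refine le_trans ?_ hA
    rw [hsq]
    have : 0 ≤ ∑ i, RCLike.im (a i) ^ 2 := by positivity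
    gcongr; linarith)
  have h2 := sum_abs_rpow_le hu hr (fun i => RCLike.im (a i)) hm him (by
    refine le_trans ?_ hA
    rw [hsq]
    have : 0 ≤ ∑ i, RCLike.re (a i) ^ 2 := by positivity
    gcongr; linarith)
  have h3 : ∑ ω : Om r D, ‖YY r D a ω‖ ^ u ≤
      2 ^ u * (NN r D * (2 * Cm u * ((∑ i, ‖a i‖ ^ 2) / r) * m ^ (u - 2))) := by
    calc ∑ ω : Om r D, ‖YY r D a ω‖ ^ u
        ≤ ∑ ω : Om r D, 2 ^ u * (|∑ i, RCLike.re (a i) * sg r (ω i)| ^ u
          + |∑ i, RCLike.im (a i) * sg r (ω i)| ^ u) := by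
          refine Finset.sum_le_sum fun ω _ => ?_
          have := norm_rpow_le (YY r D a ω) (u := u) (by linarith)
          rwa [re_YY, im_YY] at this
      _ = 2 ^ u * (∑ ω : Om r D, |∑ i, RCLike.re (a i) * sg r (ω i)| ^ u
          + ∑ ω : Om r D, |∑ i, RCLike.im (a i) * sg r (ω i)| ^ u) := by
          rw [← Finset.mul_sum, Finset.sum_add_distrib]
      _ ≤ 2 ^ u * (NN r D * (2 * Cm u * ((∑ i, RCLike.re (a i) ^ 2) / r) * m ^ (u - 2))
          + NN r D * (2 * Cm u * ((∑ i, RCLike.im (a i) ^ 2) / r) * m ^ (u - 2))) := by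
          gcongr
      _ = _ := by rw [hsq]; ring
  unfold Mom Ku
  calc r / NN r D * ∑ ω : Om r D, ‖YY r D a ω‖ ^ u
      ≤ r / NN r D * (2 ^ u * (NN r D * (2 * Cm u * ((∑ i, ‖a i‖ ^ 2) / r) * m ^ (u - 2)))) := by
        gcongr
    _ = _ := by field_simp

lemma sum_norm_sq_YY {r D : ℕ} (hr : 0 < r) (a : Fin D → 𝕜) :
    ∑ ω : Om r D, ‖YY r D a ω‖ ^ 2 = NN r D * ((∑ i, ‖a i‖ ^ 2) / r) := by
  have hsq : ∑ i, ‖a i‖ ^ 2 = ∑ i, RCLike.re (a i) ^ 2 + ∑ i, RCLike.im (a i) ^ 2 := by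
    rw [← Finset.sum_add_distrib]
    refine Finset.sum_congr rfl fun i _ => ?_
    rw [RCLike.norm_sq_eq_def]; ring
  have h1 : ∀ ω : Om r D, ‖YY r D a ω‖ ^ 2 = (∑ i, RCLike.re (a i) * sg r (ω i)) ^ 2
      + (∑ i, RCLike.im (a i) * sg r (ω i)) ^ 2 := by
    intro ω
    rw [RCLike.norm_sq_eq_def, re_YY, im_YY]; ring
  simp only [h1]
  rw [Finset.sum_add_distrib, sum_sq_real hr, sum_sq_real hr, hsq]
  ring

lemma Mom_le_small {u : ℝ} (hu : 0 < u) (hu2 : u ≤ 2) {r D : ℕ} (hr : 0 < r) (a : Fin D → 𝕜)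
    {A : ℝ} (hA : 0 ≤ A) (hAa : ∑ i, ‖a i‖ ^ 2 = A ^ 2) :
    Mom u r D a ≤ (r : ℝ) ^ (1 - u / 2) * A ^ u := by
  have hr' : (0 : ℝ) < r := by exact_mod_cast hr
  have hN := NN_pos hr D
  have h1 := Real.rpow_arith_mean_le_arith_mean_rpow (Finset.univ : Finset (Om r D))
    (fun _ => 1 / NN r D) (fun ω => ‖YY r D a ω‖ ^ u) (fun _ _ => by positivity)
    (by rw [Finset.sum_const, Finset.card_univ, nsmul_eq_mul, card_Om]; field_simp)
    (fun _ _ => by positivity) (p := 2 / u) (by rw [le_div_iff₀ hu]; linarith)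
  simp only [← Finset.mul_sum] at h1
  have h2 : ∀ ω : Om r D, (‖YY r D a ω‖ ^ u) ^ (2 / u) = ‖YY r D a ω‖ ^ 2 := by
    intro ω
    rw [← Real.rpow_mul (norm_nonneg _), mul_div_cancel₀ _ hu.ne']
    exact_mod_cast Real.rpow_natCast _ 2
  simp only [h2] at h1
  rw [sum_norm_sq_YY hr, hAa] at h1
  have h3 : 1 / NN r D * (NN r D * (A ^ 2 / r)) = A ^ 2 / r := by field_simp
  rw [h3] at h1
  have h4 : 1 / NN r D * ∑ ω : Om r D, ‖YY r D a ω‖ ^ u ≤ (A ^ 2 / r) ^ (u / 2) := by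
    have h5 : 0 ≤ 1 / NN r D * ∑ ω : Om r D, ‖YY r D a ω‖ ^ u := by positivity
    have h6 := Real.rpow_le_rpow (by positivity) h1 (by positivity : 0 ≤ u / 2)
    rw [← Real.rpow_mul h5] at h6
    have h7 : 2 / u * (u / 2) = 1 := by field_simp
    rwa [h7, Real.rpow_one] at h6
  unfold Mom
  calc r / NN r D * ∑ ω : Om r D, ‖YY r D a ω‖ ^ u
      = r * (1 / NN r D * ∑ ω : Om r D, ‖YY r D a ω‖ ^ u) := by ring
    _ ≤ r * (A ^ 2 / r) ^ (u / 2) := by gcongr
    _ = (r : ℝ) ^ (1 - u / 2) * A ^ u := by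
        rw [Real.div_rpow (by positivity) hr'.le, Real.rpow_sub hr', Real.rpow_one,
          ← Real.rpow_natCast A 2, ← Real.rpow_mul hA]
        have : ((2 : ℕ) : ℝ) * (u / 2) = u := by push_cast; ring
        rw [this]; ring

lemma Mom_le_big {u : ℝ} (hu : 2 ≤ u) {r D : ℕ} (hr : 0 < r) (a : Fin D → 𝕜)
    {A : ℝ} (hA : 0 ≤ A) (hAa : ∑ i, ‖a i‖ ^ 2 = A ^ 2) :
    Mom u r D a ≤ Ku u * A ^ u := by
  have hr' : (0 : ℝ) < r := by exact_mod_cast hr
  have hr1 : (1 : ℝ) ≤ r := by exact_mod_cast hr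
  rcases hA.eq_or_lt with h0 | hpos
  · have ha : a = 0 := by
      funext i
      have h1 : ∑ i, ‖a i‖ ^ 2 = 0 := by rw [hAa, ← h0]; norm_num
      have h2 := (Finset.sum_eq_zero_iff_of_nonneg (fun i _ => by positivity)).1 h1 i
        (Finset.mem_univ i)
      simpa using h2
    subst ha
    unfold Mom
    have hu0 : u ≠ 0 := by linarith
    simp only [norm_YY_zero, norm_zero, Real.zero_rpow hu0, Finset.sum_const_zero, mul_zero]
    have := Ku_pos u
    positivity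
  · have h1 := Mom_le_of_max hu hr a hpos (fun i => ?_) ?_
    · rw [hAa] at h1
      have h2 : A ^ u = A ^ 2 * A ^ (u - 2) := by
        rw [← Real.rpow_natCast A 2, ← Real.rpow_add hpos]; norm_num
      rw [h2]
      linarith
    · have h2 : ‖a i‖ ^ 2 ≤ A ^ 2 := by
        rw [← hAa]
        exact Finset.single_le_sum (f := fun i => ‖a i‖ ^ 2) (fun _ _ => by positivity)
          (Finset.mem_univ i)
      exact (pow_le_pow_iff_left₀ (norm_nonneg _) hA (by norm_num)).1 h2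
    · rw [hAa, div_le_iff₀ hr']
      nlinarith [sq_nonneg A]

lemma abs_sg_rpow {u : ℝ} (hu : 0 < u) (r : ℕ) (s : Fin r × Bool) :
    |sg r s| ^ u = sg r s * sg r s := by
  unfold sg
  split_ifs <;> simp [hu.ne']

lemma Mom_single {u : ℝ} (hu : 0 < u) {r D : ℕ} (hr : 0 < r) (i : Fin D) :
    Mom u r D (Pi.single i (1 : 𝕜)) = 1 := by
  have hr' : (0 : ℝ) < r := by exact_mod_cast hr
  have hN := NN_pos hr D
  have h1 : ∀ ω : Om r D, ‖YY r D (Pi.single i (1 : 𝕜)) ω‖ ^ u = sg r (ω i) * sg r (ω i) := by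
    intro ω
    have h2 : YY r D (Pi.single i (1 : 𝕜)) ω = ((sg r (ω i) : ℝ) : 𝕜) := by
      unfold YY
      rw [Finset.sum_eq_single i]
      · simp
      · intro j _ hj; simp [hj]
      · intro h; exact absurd (Finset.mem_univ i) h
    rw [h2, RCLike.norm_ofReal, abs_sg_rpow hu]
  unfold Mom
  simp only [h1]
  rw [sum_sg_mul hr, if_pos rfl]
  field_simp

variable (U : ℝ≥0∞) [Fact (1 ≤ U)]

/-- The normalizing constant `(r / N) ^ s`. -/
noncomputable def cc (s : ℝ) (r D : ℕ) : ℝ := (r / NN r D) ^ s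

lemma cc_nonneg (s : ℝ) (r D : ℕ) : 0 ≤ cc s r D := by
  unfold cc NN; positivity

/-- The operator `J : ℓ₂^D → ℓ_u(Ω)`. -/
noncomputable def JJ (r D : ℕ) : EuclideanSpace 𝕜 (Fin D) →L[𝕜] PiLp U (fun _ : Om r D => 𝕜) :=
  LinearMap.toContinuousLinearMap
    { toFun := fun a => WithLp.toLp U
        (fun ω => ((cc (1 / U.toReal) r D : ℝ) : 𝕜) * YY r D (fun i => a i) ω)
      map_add' := by
        intro a b
        ext ω
        simp only [YY, PiLp.add_apply]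
        rw [← mul_add, ← Finset.sum_add_distrib]
        congr 1
        exact Finset.sum_congr rfl fun i _ => by ring
      map_smul' := by
        intro c a
        ext ω
        simp only [YY, PiLp.smul_apply, smul_eq_mul, RingHom.id_apply, Finset.mul_sum]
        exact Finset.sum_congr rfl fun i _ => by ring }

@[simp] lemma JJ_apply (r D : ℕ) (a : EuclideanSpace 𝕜 (Fin D)) (ω : Om r D) :
    JJ U r D a ω = ((cc (1 / U.toReal) r D : ℝ) : 𝕜) * YY r D (fun i => a i) ω := rfl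

/-- The operator `P : ℓ_u(Ω) → ℓ₂^D`. -/
noncomputable def PP (r D : ℕ) : PiLp U (fun _ : Om r D => 𝕜) →L[𝕜] EuclideanSpace 𝕜 (Fin D) :=
  LinearMap.toContinuousLinearMap
    { toFun := fun x => WithLp.toLp 2
        (fun i => ((cc (1 - 1 / U.toReal) r D : ℝ) : 𝕜) * ∑ ω, x ω * ((sg r (ω i) : ℝ) : 𝕜))
      map_add' := by
        intro a b
        ext ω
        simp only [PiLp.add_apply]
        rw [← mul_add, ← Finset.sum_add_distrib]
        congr 1
        exact Finset.sum_congr rfl fun i _ => by ring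
      map_smul' := by
        intro c a
        ext ω
        simp only [PiLp.smul_apply, smul_eq_mul, RingHom.id_apply, Finset.mul_sum]
        exact Finset.sum_congr rfl fun i _ => by ring }

@[simp] lemma PP_apply (r D : ℕ) (x : PiLp U (fun _ : Om r D => 𝕜)) (i : Fin D) :
    PP U r D x i = ((cc (1 - 1 / U.toReal) r D : ℝ) : 𝕜) * ∑ ω, x ω * ((sg r (ω i) : ℝ) : 𝕜) :=
  rfl

lemma PP_JJ {r D : ℕ} (hr : 0 < r) (a : EuclideanSpace 𝕜 (Fin D)) :
    PP U r D (JJ U r D a) = a := by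
  have hr' : (0 : ℝ) < r := by exact_mod_cast hr
  have hN := NN_pos hr D
  ext i
  rw [PP_apply]
  simp only [JJ_apply]
  have h1 : ∑ ω : Om r D, ((cc (1 / U.toReal) r D : ℝ) : 𝕜) * YY r D (fun i => a i) ω
      * ((sg r (ω i) : ℝ) : 𝕜) = ((cc (1 / U.toReal) r D : ℝ) : 𝕜) *
        (a i * ((NN r D / r : ℝ) : 𝕜)) := by
    have h2 : ∀ ω : Om r D, ((cc (1 / U.toReal) r D : ℝ) : 𝕜) * YY r D (fun i => a i) ω
      * ((sg r (ω i) : ℝ) : 𝕜) = ((cc (1 / U.toReal) r D : ℝ) : 𝕜) *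
        ∑ j, a j * ((sg r (ω j) * sg r (ω i) : ℝ) : 𝕜) := by
      intro ω
      unfold YY
      rw [mul_assoc, Finset.sum_mul]
      congr 1
      refine Finset.sum_congr rfl fun j _ => ?_
      push_cast; ring
    simp only [h2]
    rw [← Finset.mul_sum, Finset.sum_comm]
    congr 1
    rw [Finset.sum_eq_single i]
    · rw [← Finset.mul_sum, ← RCLike.ofReal_sum, sum_sg_mul hr, if_pos rfl]
    · intro j _ hj
      rw [← Finset.mul_sum, ← RCLike.ofReal_sum, sum_sg_mul hr, if_neg hj]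
      simp
    · intro h; exact absurd (Finset.mem_univ i) h
  rw [h1]
  have h3 : cc (1 - 1 / U.toReal) r D * cc (1 / U.toReal) r D * (NN r D / r) = 1 := by
    unfold cc
    rw [← Real.rpow_add (by positivity)]
    simp
    field_simp
  calc ((cc (1 - 1 / U.toReal) r D : ℝ) : 𝕜) * (((cc (1 / U.toReal) r D : ℝ) : 𝕜)
      * (a i * ((NN r D / r : ℝ) : 𝕜)))
      = ((cc (1 - 1 / U.toReal) r D * cc (1 / U.toReal) r D * (NN r D / r) : ℝ) : 𝕜) * a i := by
        push_cast; ring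
    _ = a i := by rw [h3]; simp

lemma norm_JJ_rpow (hU : U ≠ ⊤) {r D : ℕ} (a : EuclideanSpace 𝕜 (Fin D)) :
    ‖JJ U r D a‖ ^ U.toReal = Mom U.toReal r D (fun i => a i) := by
  have h1 : (1 : ℝ≥0∞) ≤ U := Fact.out
  have hu : 0 < U.toReal := ENNReal.toReal_pos (by positivity) hU
  rw [PiLp.norm_eq_sum hu, ← Real.rpow_mul (by positivity), one_div_mul_cancel hu.ne',
    Real.rpow_one]
  unfold Mom
  rw [Finset.mul_sum]
  refine Finset.sum_congr rfl fun ω _ => ?_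
  rw [JJ_apply, norm_mul, RCLike.norm_ofReal, abs_of_nonneg (cc_nonneg _ _ _),
    Real.mul_rpow (cc_nonneg _ _ _) (norm_nonneg _)]
  congr 1
  unfold cc
  rw [← Real.rpow_mul (by unfold NN; positivity), one_div_mul_cancel hu.ne', Real.rpow_one]

lemma dual_PP (hU1 : 1 < U) (hU : U ≠ ⊤) {r D : ℕ} (x : PiLp U (fun _ : Om r D => 𝕜))
    (b : Fin D → 𝕜) :
    ‖∑ i, b i * PP U r D x i‖ ≤ ‖x‖ * (Mom (U.toReal.conjExponent) r D b) ^
      (1 / U.toReal.conjExponent) := by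
  have hu1 : 1 < U.toReal := by
    have := (ENNReal.toReal_lt_toReal ENNReal.one_ne_top hU).2 hU1
    simpa using this
  have hconj : U.toReal.HolderConjugate (U.toReal.conjExponent) :=
    Real.HolderConjugate.conjExponent hu1
  have hu0 : 0 < U.toReal := by linarith
  have hv0 : 0 < U.toReal.conjExponent := hconj.symm.pos
  set v := U.toReal.conjExponent with hv
  have hs : 1 - 1 / U.toReal = 1 / v := by
    have := hconj.inv_add_inv_eq_one
    rw [one_div, one_div]; linarith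
  have h1 : ∑ i, b i * PP U r D x i = ∑ ω, x ω * (((cc (1 / v) r D : ℝ) : 𝕜) * YY r D b ω) := by
    simp only [PP_apply, hs, YY]
    simp only [Finset.mul_sum]
    rw [Finset.sum_comm]
    refine Finset.sum_congr rfl fun ω _ => Finset.sum_congr rfl fun i _ => by ring
  rw [h1]
  calc ‖∑ ω, x ω * (((cc (1 / v) r D : ℝ) : 𝕜) * YY r D b ω)‖
      ≤ ∑ ω, ‖x ω‖ * ‖((cc (1 / v) r D : ℝ) : 𝕜) * YY r D b ω‖ := by
        refine (norm_sum_le _ _).trans (le_of_eq ?_)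
        exact Finset.sum_congr rfl fun ω _ => norm_mul _ _
    _ ≤ (∑ ω, ‖x ω‖ ^ U.toReal) ^ (1 / U.toReal) *
        (∑ ω, ‖((cc (1 / v) r D : ℝ) : 𝕜) * YY r D b ω‖ ^ v) ^ (1 / v) :=
        Real.inner_le_Lp_mul_Lq_of_nonneg _ hconj (fun _ _ => norm_nonneg _)
          (fun _ _ => norm_nonneg _)
    _ = ‖x‖ * (Mom v r D b) ^ (1 / v) := by
        rw [PiLp.norm_eq_sum hu0]
        congr 2
        unfold Mom
        rw [Finset.mul_sum]
        refine Finset.sum_congr rfl fun ω _ => ?_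
        rw [norm_mul, RCLike.norm_ofReal, abs_of_nonneg (cc_nonneg _ _ _),
          Real.mul_rpow (cc_nonneg _ _ _) (norm_nonneg _)]
        congr 1
        unfold cc
        rw [← Real.rpow_mul (by unfold NN; positivity), one_div_mul_cancel hv0.ne', Real.rpow_one]

lemma norm_PP_coord_le (hU1 : 1 < U) (hU : U ≠ ⊤) {r D : ℕ} (hr : 0 < r)
    (x : PiLp U (fun _ : Om r D => 𝕜)) (i : Fin D) : ‖PP U r D x i‖ ≤ ‖x‖ := by
  have hu1 : 1 < U.toReal := by
    have := (ENNReal.toReal_lt_toReal ENNReal.one_ne_top hU).2 hU1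
    simpa using this
  have h := dual_PP U hU1 hU x (Pi.single i (1 : 𝕜))
  rw [Mom_single ((Real.HolderConjugate.conjExponent hu1).symm.pos) hr, Real.one_rpow,
    mul_one] at h
  refine le_trans (le_of_eq ?_) h
  congr 1
  rw [Finset.sum_eq_single i]
  · simp
  · intro j _ hj; simp [hj]
  · intro h; exact absurd (Finset.mem_univ i) h

lemma norm_JJ_single (hU : U ≠ ⊤) {r D : ℕ} (hr : 0 < r) (i : Fin D) :
    ‖JJ (𝕜 := 𝕜) U r D (EuclideanSpace.single i 1)‖ = 1 := by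
  have h1 : (1 : ℝ≥0∞) ≤ U := Fact.out
  have hu : 0 < U.toReal := ENNReal.toReal_pos (by positivity) hU
  have h2 := norm_JJ_rpow U hU (r := r) (EuclideanSpace.single i (1 : 𝕜))
  have h3 : (fun j => (EuclideanSpace.single i (1 : 𝕜)) j) = Pi.single i (1 : 𝕜) := by
    funext j; simp [Pi.single_apply]
  rw [h3, Mom_single hu hr] at h2
  have h4 := congrArg (fun t => t ^ (1 / U.toReal)) h2
  simp only [← Real.rpow_mul (norm_nonneg _), mul_one_div_cancel hu.ne', Real.rpow_one,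
    Real.one_rpow] at h4
  exact h4

/-- The key duality inequality. -/
lemma norm_sq_PP_le (hU1 : 1 < U) (hU : U ≠ ⊤) {r D : ℕ} (x : PiLp U (fun _ : Om r D => 𝕜)) :
    ‖PP U r D x‖ ^ 2 ≤ ‖x‖ * (Mom (U.toReal.conjExponent) r D
      (fun i => (starRingEnd 𝕜) (PP U r D x i))) ^ (1 / U.toReal.conjExponent) := by
  refine le_trans (le_of_eq ?_) (dual_PP U hU1 hU x (fun i => (starRingEnd 𝕜) (PP U r D x i)))
  have h1 : ∑ i, (starRingEnd 𝕜) (PP U r D x i) * PP U r D x i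
      = ((‖PP U r D x‖ ^ 2 : ℝ) : 𝕜) := by
    rw [EuclideanSpace.norm_sq_eq]
    push_cast
    exact Finset.sum_congr rfl fun i _ => RCLike.conj_mul _
  rw [h1, RCLike.norm_ofReal, abs_of_nonneg (by positivity)]

end Pool.Agent.Work.MP_4336d9_an
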