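import Pool.Agent.Work.MP_4336d9_an.Statement

/-! The working form of finite strict singularity. -/

namespace Pool.Agent.Work.MP_4336d9_an

variable {𝕜 X Y : Type*} [RCLike 𝕜] [NormedAddCommGroup X] [NormedSpace 𝕜 X]
    [NormedAddCommGroup Y] [NormedSpace 𝕜 Y]

/-- The working form: every linear map `f : 𝕜ⁿ → X` has a nonzero `c` with
`‖T (f c)‖ ≤ ε * ‖f c‖`. -/
def Prof (T : X →ₗ[𝕜] Y) (ε : ℝ) (n : ℕ) : Prop :=
  ∀ f : (Fin n → 𝕜) →ₗ[𝕜] X, ∃ c : Fin n → 𝕜, c ≠ 0 ∧ ‖T (f c)‖ ≤ ε * ‖f c‖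

lemma Prof.of_isFSS {T : X →L[𝕜] Y} (hT : IsFSS T) {ε : ℝ} (hε : 0 < ε) :
    ∃ n, Prof (T : X →ₗ[𝕜] Y) ε n := by
  obtain ⟨n, hn⟩ := hT ε hε
  refine ⟨n + 1, fun f => ?_⟩
  by_cases hf : Function.Injective f
  · have hr : (n : Cardinal) ≤ Module.rank 𝕜 (LinearMap.range f) := by
      rw [← Module.finrank_eq_rank, LinearMap.finrank_range_of_inj hf, Module.finrank_fin_fun]
      exact_mod_cast Nat.le_succ n
    obtain ⟨x, hx, hx0, hTx⟩ := hn _ hr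
    obtain ⟨c, rfl⟩ := hx
    refine ⟨c, ?_, hTx⟩
    rintro rfl
    exact hx0 (map_zero f)
  · have : ∃ c, f c = 0 ∧ c ≠ 0 := by
      by_contra hcon
      push Not at hcon
      exact hf ((injective_iff_map_eq_zero f).2 hcon)
    obtain ⟨c, hc, hc0⟩ := this
    exact ⟨c, hc0, by simp [hc]⟩

lemma isFSS_of_prof {T : X →L[𝕜] Y} (h : ∀ ε : ℝ, 0 < ε → ∃ n, Prof (T : X →ₗ[𝕜] Y) ε n) :
    IsFSS T := by
  intro ε hε
  obtain ⟨n, hn⟩ := h ε hε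
  refine ⟨n, fun E hE => ?_⟩
  obtain ⟨s, hs, hli⟩ := le_rank_iff_exists_linearIndependent_finset.1 hE
  have e : Fin n ≃ s := (Fintype.equivFinOfCardEq (by simpa using hs)).symm
  have hli' : LinearIndependent 𝕜 (fun i : Fin n => ((e i : E) : X)) := by
    have h1 : LinearIndependent 𝕜 (fun i : Fin n => (e i : E)) := hli.comp e e.injective
    exact h1.map' E.subtype (by simp)
  obtain ⟨c, hc0, hc⟩ := hn (Fintype.linearCombination 𝕜 (fun i : Fin n => ((e i : E) : X)))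
  refine ⟨_, ?_, ?_, hc⟩
  · rw [Fintype.linearCombination_apply]
    exact Submodule.sum_mem _ fun i _ => E.smul_mem _ (e i : E).2
  · intro h0
    rw [Fintype.linearCombination_apply] at h0
    exact hc0 (funext ((Fintype.linearIndependent_iff.1 hli') c h0))

lemma Prof.mono {T : X →ₗ[𝕜] Y} {ε ε' : ℝ} {n : ℕ} (h : Prof T ε n) (hε : ε ≤ ε') :
    Prof T ε' n := by
  intro f
  obtain ⟨c, hc0, hc⟩ := h f
  exact ⟨c, hc0, hc.trans (by gcongr)⟩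

lemma Prof.comp {X' Y' : Type*} [NormedAddCommGroup X'] [NormedSpace 𝕜 X']
    [NormedAddCommGroup Y'] [NormedSpace 𝕜 Y']
    {T : X →L[𝕜] Y} {ε : ℝ} (hε : 0 ≤ ε) {n : ℕ} (h : Prof (T : X →ₗ[𝕜] Y) ε n)
    (A : Y →L[𝕜] Y') (B : X' →L[𝕜] X) {a b : ℝ} (ha : ‖A‖ ≤ a) (hb : ‖B‖ ≤ b) :
    Prof ((A.comp (T.comp B) : X' →L[𝕜] Y') : X' →ₗ[𝕜] Y') (a * ε * b) n := by
  intro f
  obtain ⟨c, hc0, hc⟩ := h ((B : X' →ₗ[𝕜] X) ∘ₗ f)
  refine ⟨c, hc0, ?_⟩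
  simp only [LinearMap.coe_comp, Function.comp_apply, ContinuousLinearMap.coe_coe] at hc
  simp only [ContinuousLinearMap.coe_coe, ContinuousLinearMap.comp_apply]
  have ha0 : 0 ≤ a := (norm_nonneg _).trans ha
  have hb0 : 0 ≤ b := (norm_nonneg _).trans hb
  calc ‖A (T (B (f c)))‖ ≤ ‖A‖ * ‖T (B (f c))‖ := A.le_opNorm _
    _ ≤ a * (ε * ‖B (f c)‖) := by gcongr
    _ ≤ a * (ε * (‖B‖ * ‖f c‖)) := by gcongr; exact B.le_opNorm _
    _ ≤ a * (ε * (b * ‖f c‖)) := by gcongr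
    _ = a * ε * b * ‖f c‖ := by ring

end Pool.Agent.Work.MP_4336d9_an
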