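import Mathlib

/-! A finite system of independent symmetric variables with values in `{-1, 0, 1}`, of variance
`1 / r`, and its moments. -/

open Finset

namespace Pool.Agent.Work.MP_4336d9_an

/-- The outcome space: `D` independent uniform choices in `Fin r × Bool`. -/
abbrev Om (r D : ℕ) := Fin D → (Fin r × Bool)

/-- The basic variable: `1` or `-1` with probability `1 / (2 r)` each, and `0` otherwise. -/
def sg (r : ℕ) (s : Fin r × Bool) : ℝ := if s.1.val = 0 then (if s.2 then 1 else -1) else 0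

/-- The number of outcomes. -/
noncomputable def NN (r D : ℕ) : ℝ := (2 * (r : ℝ)) ^ D

lemma NN_pos {r : ℕ} (hr : 0 < r) (D : ℕ) : 0 < NN r D := by
  have : (0 : ℝ) < r := by exact_mod_cast hr
  unfold NN; positivity

lemma card_Om (r D : ℕ) : (Fintype.card (Om r D) : ℝ) = NN r D := by
  simp [NN, Fintype.card_pi, mul_comm]

lemma sum_prod_Om {r D : ℕ} (g : Fin D → Fin r × Bool → ℝ) :
    ∑ ω : Om r D, ∏ k, g k (ω k) = ∏ k, ∑ s, g k s := by
  rw [Finset.prod_univ_sum, Fintype.piFinset_univ]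

lemma sum_fin_ite {r : ℕ} (hr : 0 < r) (a b : ℝ) :
    ∑ k : Fin r, (if k.val = 0 then a else b) = a + (r - 1) * b := by
  obtain ⟨m, rfl⟩ : ∃ m, r = m + 1 := ⟨r - 1, by omega⟩
  rw [Fin.sum_univ_succ]
  simp

lemma sum_sg_fun {r : ℕ} (hr : 0 < r) (F : ℝ → ℝ) :
    ∑ s : Fin r × Bool, F (sg r s) = F 1 + F (-1) + 2 * (r - 1) * F 0 := by
  rw [Fintype.sum_prod_type]
  have h1 : ∀ k : Fin r, ∑ b : Bool, F (sg r (k, b)) =
      if k.val = 0 then F 1 + F (-1) else 2 * F 0 := by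
    intro k
    rw [Fintype.sum_bool]
    by_cases h : k.val = 0
    · simp [sg, h]
    · simp [sg, h]; ring
  simp only [h1]
  rw [sum_fin_ite hr]
  ring

lemma sum_sg {r : ℕ} (hr : 0 < r) : ∑ s : Fin r × Bool, sg r s = 0 := by
  have := sum_sg_fun hr (fun x => x)
  simpa using this

lemma sum_sg_sq {r : ℕ} (hr : 0 < r) : ∑ s : Fin r × Bool, sg r s ^ 2 = 2 := by
  have := sum_sg_fun hr (fun x => x ^ 2)
  rw [this]; norm_num

lemma sum_sg_exp {r : ℕ} (hr : 0 < r) (t : ℝ) :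
    ∑ s : Fin r × Bool, Real.exp (t * sg r s) = 2 * r * (1 + (Real.cosh t - 1) / r) := by
  have := sum_sg_fun hr (fun x => Real.exp (t * x))
  have hr' : (r : ℝ) ≠ 0 := by exact_mod_cast hr.ne'
  rw [this, Real.cosh_eq]
  field_simp
  simp
  ring

lemma cosh_sub_one_le {t : ℝ} (ht : |t| ≤ 1) : Real.cosh t - 1 ≤ t ^ 2 := by
  have h1 : Real.cosh t ≤ Real.exp (t ^ 2 / 2) := Real.cosh_le_exp_half_sq t
  have h2 : t ^ 2 ≤ 1 := by
    have := sq_le_sq' (by linarith [abs_nonneg t]) ht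
    rwa [sq_abs, one_pow] at this
  have h3 : |Real.exp (t ^ 2 / 2) - 1| ≤ 2 * |t ^ 2 / 2| := by
    apply Real.abs_exp_sub_one_le
    rw [abs_of_nonneg (by positivity)]
    linarith
  rw [abs_of_nonneg (by positivity : (0 : ℝ) ≤ t ^ 2 / 2)] at h3
  have h4 := (le_abs_self _).trans h3
  linarith

/-- The exponential moment. -/
lemma sum_exp_le {r D : ℕ} (hr : 0 < r) (b : Fin D → ℝ) (hb : ∀ i, |b i| ≤ 1) :
    ∑ ω : Om r D, Real.exp (∑ i, b i * sg r (ω i)) ≤ NN r D * Real.exp ((∑ i, b i ^ 2) / r) := by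
  have hr' : (0 : ℝ) < r := by exact_mod_cast hr
  have h1 : ∀ ω : Om r D, Real.exp (∑ i, b i * sg r (ω i))
      = ∏ i, Real.exp (b i * sg r (ω i)) := fun ω => Real.exp_sum _ _
  simp only [h1]
  rw [sum_prod_Om (fun i s => Real.exp (b i * sg r s))]
  have h2 : ∀ i, ∑ s : Fin r × Bool, Real.exp (b i * sg r s)
      ≤ 2 * r * Real.exp (b i ^ 2 / r) := by
    intro i
    rw [sum_sg_exp hr]
    have h3 : 1 + (Real.cosh (b i) - 1) / r ≤ 1 + b i ^ 2 / r := by
      have := cosh_sub_one_le (hb i)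
      gcongr
    have h4 : 1 + b i ^ 2 / r ≤ Real.exp (b i ^ 2 / r) := by
      rw [add_comm]; exact Real.add_one_le_exp _
    gcongr
    exact h3.trans h4
  calc ∏ i, ∑ s : Fin r × Bool, Real.exp (b i * sg r s)
      ≤ ∏ i, (2 * r * Real.exp (b i ^ 2 / r)) :=
        Finset.prod_le_prod (fun i _ => Finset.sum_nonneg fun _ _ => (Real.exp_pos _).le)
          fun i _ => h2 i
    _ = NN r D * Real.exp ((∑ i, b i ^ 2) / r) := by
        rw [Finset.prod_mul_distrib, ← Real.exp_sum, Finset.sum_div]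
        simp [NN]

lemma pow_le_cosh {k : ℕ} (hk : 0 < k) (y : ℝ) :
    y ^ (2 * k) ≤ (2 * k).factorial * (Real.cosh y - 1) := by
  have h := Real.hasSum_cosh y
  have h1 : ∑ n ∈ ({0, k} : Finset ℕ), y ^ (2 * n) / ((2 * n).factorial : ℝ) ≤ Real.cosh y := by
    refine sum_le_hasSum _ (fun n _ => ?_) h
    rw [pow_mul]; positivity
  rw [Finset.sum_pair hk.ne] at h1
  simp only [mul_zero, pow_zero, Nat.factorial_zero, Nat.cast_one, div_one] at h1
  have h2 : y ^ (2 * k) / ((2 * k).factorial : ℝ) ≤ Real.cosh y - 1 := by linarith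
  rw [div_le_iff₀ (by positivity)] at h2
  linarith

/-- The constant in the moment estimate. -/
noncomputable def Cm (u : ℝ) : ℝ := ((2 * ⌈u⌉₊).factorial : ℝ)

lemma Cm_pos (u : ℝ) : 0 < Cm u := by unfold Cm; positivity

lemma rpow_le_cosh {u : ℝ} (hu : 2 ≤ u) (y : ℝ) : |y| ^ u ≤ Cm u * (Real.cosh y - 1) := by
  have hk : 2 ≤ ⌈u⌉₊ := by
    have := Nat.le_ceil u
    exact_mod_cast hu.trans this
  have hcosh : 0 ≤ Real.cosh y - 1 := by linarith [Real.one_le_cosh y]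
  rcases le_total |y| 1 with h | h
  · have h1 : |y| ^ u ≤ |y| ^ (2 : ℝ) := Real.rpow_le_rpow_of_exponent_ge' (abs_nonneg y) h
      (by norm_num) hu
    have h2 : |y| ^ (2 : ℝ) = y ^ 2 := by
      rw [show (2 : ℝ) = ((2 : ℕ) : ℝ) by norm_num, Real.rpow_natCast, sq_abs]
    have h3 := pow_le_cosh (k := 1) one_pos y
    simp only [mul_one] at h3
    have h4 : ((2 : ℕ).factorial : ℝ) ≤ Cm u := by
      unfold Cm
      exact_mod_cast Nat.factorial_le (by omega)
    calc |y| ^ u ≤ y ^ 2 := by rw [← h2]; exact h1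
      _ ≤ ((2 : ℕ).factorial : ℝ) * (Real.cosh y - 1) := h3
      _ ≤ Cm u * (Real.cosh y - 1) := by gcongr
  · have h1 : |y| ^ u ≤ |y| ^ ((2 * ⌈u⌉₊ : ℕ) : ℝ) := by
      refine Real.rpow_le_rpow_of_exponent_le h ?_
      have := Nat.le_ceil u
      push_cast
      linarith
    rw [Real.rpow_natCast, Even.pow_abs (even_two_mul _)] at h1
    exact h1.trans (pow_le_cosh (by omega) y)

lemma sum_abs_rpow_le_one {u : ℝ} (hu : 2 ≤ u) {r D : ℕ} (hr : 0 < r) (b : Fin D → ℝ)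
    (hb : ∀ i, |b i| ≤ 1) (hB : (∑ i, b i ^ 2) / r ≤ 1) :
    ∑ ω : Om r D, |∑ i, b i * sg r (ω i)| ^ u ≤ NN r D * (2 * Cm u * ((∑ i, b i ^ 2) / r)) := by
  have hr' : (0 : ℝ) < r := by exact_mod_cast hr
  have hB0 : 0 ≤ (∑ i, b i ^ 2) / (r : ℝ) := by positivity
  have h1 := sum_exp_le hr b hb
  have h2 := sum_exp_le hr (fun i => - b i) (by simpa using hb)
  have h2' : ∑ ω : Om r D, Real.exp (-(∑ i, b i * sg r (ω i)))
      ≤ NN r D * Real.exp ((∑ i, b i ^ 2) / r) := by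
    simpa [Finset.sum_neg_distrib] using h2
  have h3 : ∑ ω : Om r D, (Real.cosh (∑ i, b i * sg r (ω i)) - 1)
      ≤ NN r D * (Real.exp ((∑ i, b i ^ 2) / r) - 1) := by
    rw [Finset.sum_sub_distrib, Finset.sum_const, Finset.card_univ, nsmul_eq_mul, card_Om]
    have h4 : ∑ ω : Om r D, Real.cosh (∑ i, b i * sg r (ω i))
        = (∑ ω : Om r D, Real.exp (∑ i, b i * sg r (ω i))
          + ∑ ω : Om r D, Real.exp (-(∑ i, b i * sg r (ω i)))) / 2 := by
      rw [← Finset.sum_add_distrib, Finset.sum_div]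
      exact Finset.sum_congr rfl fun ω _ => Real.cosh_eq _
    rw [h4]
    linarith
  have h5 : Real.exp ((∑ i, b i ^ 2) / r) - 1 ≤ 2 * ((∑ i, b i ^ 2) / r) := by
    have h6 : |Real.exp ((∑ i, b i ^ 2) / r) - 1| ≤ 2 * |(∑ i, b i ^ 2) / (r : ℝ)| := by
      apply Real.abs_exp_sub_one_le
      rwa [abs_of_nonneg hB0]
    rw [abs_of_nonneg hB0] at h6
    exact (le_abs_self _).trans h6
  have hN := (NN_pos hr D).le
  have hC := (Cm_pos u).le
  calc ∑ ω : Om r D, |∑ i, b i * sg r (ω i)| ^ u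
      ≤ ∑ ω : Om r D, Cm u * (Real.cosh (∑ i, b i * sg r (ω i)) - 1) :=
        Finset.sum_le_sum fun ω _ => rpow_le_cosh hu _
    _ = Cm u * ∑ ω : Om r D, (Real.cosh (∑ i, b i * sg r (ω i)) - 1) := by
        rw [Finset.mul_sum]
    _ ≤ Cm u * (NN r D * (Real.exp ((∑ i, b i ^ 2) / r) - 1)) := by gcongr
    _ ≤ Cm u * (NN r D * (2 * ((∑ i, b i ^ 2) / r))) := by gcongr
    _ = NN r D * (2 * Cm u * ((∑ i, b i ^ 2) / r)) := by ring

/-- The moment estimate, real coefficients. -/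
lemma sum_abs_rpow_le {u : ℝ} (hu : 2 ≤ u) {r D : ℕ} (hr : 0 < r) (b : Fin D → ℝ) {m : ℝ}
    (hm : 0 < m) (hb : ∀ i, |b i| ≤ m) (hB : (∑ i, b i ^ 2) / r ≤ m ^ 2) :
    ∑ ω : Om r D, |∑ i, b i * sg r (ω i)| ^ u
      ≤ NN r D * (2 * Cm u * ((∑ i, b i ^ 2) / r) * m ^ (u - 2)) := by
  have hr' : (0 : ℝ) < r := by exact_mod_cast hr
  have h0 := sum_abs_rpow_le_one hu hr (fun i => b i / m)
    (fun i => by rw [abs_div, abs_of_pos hm, div_le_one hm]; exact hb i) (by
      have : (∑ i, (b i / m) ^ 2) / (r : ℝ) = ((∑ i, b i ^ 2) / r) / m ^ 2 := by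
        simp only [div_pow]
        rw [← Finset.sum_div]; ring
      rw [this, div_le_one (by positivity)]
      exact hB)
  have h1 : (∑ i, (b i / m) ^ 2) / (r : ℝ) = ((∑ i, b i ^ 2) / r) / m ^ 2 := by
    simp only [div_pow]
    rw [← Finset.sum_div]; ring
  rw [h1] at h0
  have h2 : ∀ ω : Om r D, |∑ i, b i * sg r (ω i)| ^ u
      = m ^ u * |∑ i, b i / m * sg r (ω i)| ^ u := by
    intro ω
    have h3 : ∑ i, b i * sg r (ω i) = m * ∑ i, b i / m * sg r (ω i) := by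
      rw [Finset.mul_sum]
      refine Finset.sum_congr rfl fun i _ => ?_
      field_simp
    rw [h3, abs_mul, abs_of_pos hm, Real.mul_rpow hm.le (abs_nonneg _)]
  simp only [h2]
  rw [← Finset.mul_sum]
  have h4 : m ^ u = m ^ (u - 2) * m ^ 2 := by
    rw [← Real.rpow_natCast m 2, ← Real.rpow_add hm]; norm_num
  calc m ^ u * ∑ ω : Om r D, |∑ i, b i / m * sg r (ω i)| ^ u
      ≤ m ^ u * (NN r D * (2 * Cm u * (((∑ i, b i ^ 2) / r) / m ^ 2))) := by gcongr
    _ = NN r D * (2 * Cm u * ((∑ i, b i ^ 2) / r) * m ^ (u - 2)) := by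
        rw [h4]; field_simp

/-- Orthogonality. -/
lemma sum_sg_mul {r D : ℕ} (hr : 0 < r) (i j : Fin D) :
    ∑ ω : Om r D, sg r (ω i) * sg r (ω j) = if i = j then NN r D / r else 0 := by
  have hr' : (r : ℝ) ≠ 0 := by exact_mod_cast hr.ne'
  have h1 : ∀ ω : Om r D, sg r (ω i) * sg r (ω j)
      = ∏ k, ((if k = i then sg r (ω k) else 1) * (if k = j then sg r (ω k) else 1)) := by
    intro ω
    rw [Finset.prod_mul_distrib, Finset.prod_ite_eq' , Finset.prod_ite_eq']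
    simp
  simp only [h1]
  rw [sum_prod_Om (fun k s => (if k = i then sg r s else 1) * (if k = j then sg r s else 1))]
  split_ifs with hij
  · subst hij
    have h2 : ∀ k, ∑ s : Fin r × Bool, (if k = i then sg r s else 1) * (if k = i then sg r s else 1)
        = if k = i then (2 : ℝ) else 2 * r := by
      intro k
      split_ifs with hk
      · have := sum_sg_sq hr
        simpa [sq] using this
      · simp [mul_comm]
    simp only [h2]
    rw [← Finset.mul_prod_erase _ _ (Finset.mem_univ i), if_pos rfl,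
      Finset.prod_congr rfl (g := fun _ => 2 * (r : ℝ))
        (fun k hk => if_neg (Finset.ne_of_mem_erase hk)), Finset.prod_const,
      Finset.card_erase_of_mem (Finset.mem_univ i), Finset.card_univ, Fintype.card_fin]
    unfold NN
    have hD : D = (D - 1) + 1 := by have := i.2; omega
    conv_rhs => rw [hD, pow_succ]
    field_simp
  · apply Finset.prod_eq_zero (Finset.mem_univ i)
    simp [hij, sum_sg hr]

lemma sum_sq_real {r D : ℕ} (hr : 0 < r) (b : Fin D → ℝ) :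
    ∑ ω : Om r D, (∑ i, b i * sg r (ω i)) ^ 2 = NN r D * ((∑ i, b i ^ 2) / r) := by
  have h1 : ∀ ω : Om r D, (∑ i, b i * sg r (ω i)) ^ 2
      = ∑ i, ∑ j, b i * b j * (sg r (ω i) * sg r (ω j)) := by
    intro ω
    rw [sq, Finset.sum_mul_sum]
    refine Finset.sum_congr rfl fun i _ => Finset.sum_congr rfl fun j _ => by ring
  simp only [h1]
  rw [Finset.sum_comm]
  have h2 : ∀ i, ∑ ω : Om r D, ∑ j, b i * b j * (sg r (ω i) * sg r (ω j))
      = b i ^ 2 * (NN r D / r) := by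
    intro i
    rw [Finset.sum_comm]
    simp only [← Finset.mul_sum]
    simp only [sum_sg_mul hr]
    simp [sq]
  simp only [h2]
  rw [← Finset.sum_mul]
  ring

end Pool.Agent.Work.MP_4336d9_an
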