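import Pool.Agent.Work.MP_4336d9_an.Trace

/-! A criterion for an operator not to belong to the closed ideal generated by `T`. -/

open scoped InnerProductSpace

namespace Pool.Agent.Work.MP_4336d9_an

variable {𝕜 X Y : Type*} [RCLike 𝕜] [NormedAddCommGroup X] [NormedSpace 𝕜 X]
    [NormedAddCommGroup Y] [NormedSpace 𝕜 Y]

lemma trace_entry {D : ℕ} (M : EuclideanSpace 𝕜 (Fin D) →ₗ[𝕜] EuclideanSpace 𝕜 (Fin D)) :
    LinearMap.trace 𝕜 _ M = ∑ i, (M (EuclideanSpace.single i 1)) i := by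
  rw [LinearMap.trace_eq_sum_inner M (EuclideanSpace.basisFun (Fin D) 𝕜)]
  refine Finset.sum_congr rfl fun i _ => ?_
  rw [EuclideanSpace.basisFun_apply, EuclideanSpace.inner_single_left]
  simp

theorem not_mem_closedIdeal {T : X →L[𝕜] Y} (D : ℕ → ℕ) (w : ℕ → ℝ) (hw : ∀ j, 0 < w j)
    (K : ℝ) (hK : 0 < K) (n : ℕ → ℕ)
    (hn : ∀ j : ℕ, Prof (T : X →ₗ[𝕜] Y) (w j / (4 * ((j : ℝ) + 1) ^ 3 * K ^ 2)) (n j))
    (hD : ∀ j : ℕ, ((j : ℝ) + 1) ^ 3 * K ^ 2 * ‖T‖ * n j < D j * w j / 2)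
    (S : X →L[𝕜] Y) (V : ∀ j, EuclideanSpace 𝕜 (Fin (D j)) →L[𝕜] X)
    (W : ∀ j, Y →L[𝕜] EuclideanSpace 𝕜 (Fin (D j)))
    (hV : ∀ j, ‖V j‖ ≤ K) (hW : ∀ j, ‖W j‖ ≤ K)
    (hWSV : ∀ j i, (W j (S (V j (EuclideanSpace.single i 1)))) i = (w j : 𝕜))
    (hent : ∀ j i (Δ : X →L[𝕜] Y),
      ‖(W j (Δ (V j (EuclideanSpace.single i 1)))) i‖ ≤ K * w j * ‖Δ‖) :
    S ∉ closedIdeal T := by
  intro hmem
  rw [closedIdeal, Metric.mem_closure_iff] at hmem
  obtain ⟨S', ⟨m, A, B, hS'⟩, hdist⟩ := hmem (1 / (4 * K)) (by positivity)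
  rw [dist_eq_norm] at hdist
  obtain ⟨j, hj⟩ := exists_nat_ge ((m : ℝ) + ∑ i, ‖A i‖ + ∑ i, ‖B i‖)
  have hA0 : 0 ≤ ∑ i, ‖A i‖ := Finset.sum_nonneg fun _ _ => norm_nonneg _
  have hB0 : 0 ≤ ∑ i, ‖B i‖ := Finset.sum_nonneg fun _ _ => norm_nonneg _
  have hm0 : (0 : ℝ) ≤ m := Nat.cast_nonneg m
  set J : ℝ := (j : ℝ) + 1 with hJ
  have hJ0 : 0 < J := by positivity
  have hmJ : (m : ℝ) ≤ J := by linarith
  have hA : ∀ i, ‖A i‖ ≤ J := fun i => by
    have := Finset.single_le_sum (f := fun i => ‖A i‖) (fun _ _ => norm_nonneg _)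
      (Finset.mem_univ i)
    linarith
  have hB : ∀ i, ‖B i‖ ≤ J := fun i => by
    have := Finset.single_le_sum (f := fun i => ‖B i‖) (fun _ _ => norm_nonneg _)
      (Finset.mem_univ i)
    linarith
  -- the trace of `W S' V`
  let M : Fin m → (EuclideanSpace 𝕜 (Fin (D j)) →L[𝕜] EuclideanSpace 𝕜 (Fin (D j))) :=
    fun i => ((W j).comp (A i)).comp (T.comp ((B i).comp (V j)))
  have hsum : ((((W j).comp S').comp (V j) :
      EuclideanSpace 𝕜 (Fin (D j)) →L[𝕜] EuclideanSpace 𝕜 (Fin (D j))) :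
      EuclideanSpace 𝕜 (Fin (D j)) →ₗ[𝕜] EuclideanSpace 𝕜 (Fin (D j))) = ∑ i, (M i :
      EuclideanSpace 𝕜 (Fin (D j)) →ₗ[𝕜] EuclideanSpace 𝕜 (Fin (D j))) := by
    ext x : 1
    simp [hS', M, map_sum, sandwich]
  have htr : ∀ i, ‖LinearMap.trace 𝕜 _ (M i : EuclideanSpace 𝕜 (Fin (D j)) →ₗ[𝕜]
      EuclideanSpace 𝕜 (Fin (D j)))‖ ≤ D j * (w j / (4 * J)) + n j * (K * J * (‖T‖ * (J * K))) := by
    intro i
    have hWA : ‖(W j).comp (A i)‖ ≤ K * J :=
      ((W j).opNorm_comp_le (A i)).trans (mul_le_mul (hW j) (hA i) (norm_nonneg _) hK.le)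
    have hBV : ‖(B i).comp (V j)‖ ≤ J * K :=
      ((B i).opNorm_comp_le (V j)).trans (mul_le_mul (hB i) (hV j) (norm_nonneg _) hJ0.le)
    refine trace_bound (finrank_euclideanSpace_fin) _ ?_ (by positivity) ?_ ?_
    · have := hw j
      positivity
    · have h1 := (hn j).comp (by have := hw j; positivity) ((W j).comp (A i))
        ((B i).comp (V j)) hWA hBV
      have h2 : K * J * (w j / (4 * J ^ 3 * K ^ 2)) * (J * K) = w j / (4 * J) := by
        field_simp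
      rw [h2] at h1
      exact h1
    · intro x
      have h1 : ‖M i‖ ≤ K * J * (‖T‖ * (J * K)) := by
        refine (ContinuousLinearMap.opNorm_comp_le _ _).trans ?_
        refine mul_le_mul hWA ?_ (norm_nonneg _) (by positivity)
        refine (ContinuousLinearMap.opNorm_comp_le _ _).trans ?_
        exact mul_le_mul_of_nonneg_left hBV (norm_nonneg _)
      exact (M i).le_of_opNorm_le h1 x
  have hup : ‖LinearMap.trace 𝕜 _ ((((W j).comp S').comp (V j) :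
      EuclideanSpace 𝕜 (Fin (D j)) →L[𝕜] EuclideanSpace 𝕜 (Fin (D j))) :
      EuclideanSpace 𝕜 (Fin (D j)) →ₗ[𝕜] EuclideanSpace 𝕜 (Fin (D j)))‖
      ≤ D j * w j / 4 + J ^ 3 * K ^ 2 * ‖T‖ * n j := by
    rw [hsum, map_sum]
    calc _ ≤ ∑ i, ‖LinearMap.trace 𝕜 _ (M i : EuclideanSpace 𝕜 (Fin (D j)) →ₗ[𝕜]
      EuclideanSpace 𝕜 (Fin (D j)))‖ := norm_sum_le _ _
      _ ≤ ∑ _i : Fin m, (D j * (w j / (4 * J)) + n j * (K * J * (‖T‖ * (J * K)))) :=
        Finset.sum_le_sum fun i _ => htr i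
      _ = m * (D j * (w j / (4 * J)) + n j * (K * J * (‖T‖ * (J * K)))) := by
        rw [Finset.sum_const, Finset.card_univ, Fintype.card_fin, nsmul_eq_mul]
      _ ≤ J * (D j * (w j / (4 * J)) + n j * (K * J * (‖T‖ * (J * K)))) := by
        have := hw j
        gcongr
      _ = D j * w j / 4 + J ^ 3 * K ^ 2 * ‖T‖ * n j := by
        field_simp
  have hlow : 3 / 4 * (D j * w j) ≤ ‖LinearMap.trace 𝕜 _ ((((W j).comp S').comp (V j) :
      EuclideanSpace 𝕜 (Fin (D j)) →L[𝕜] EuclideanSpace 𝕜 (Fin (D j))) :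
      EuclideanSpace 𝕜 (Fin (D j)) →ₗ[𝕜] EuclideanSpace 𝕜 (Fin (D j)))‖ := by
    rw [trace_entry]
    have h1 : ∀ i, ((((W j).comp S').comp (V j) : EuclideanSpace 𝕜 (Fin (D j)) →L[𝕜]
        EuclideanSpace 𝕜 (Fin (D j))) : EuclideanSpace 𝕜 (Fin (D j)) →ₗ[𝕜]
        EuclideanSpace 𝕜 (Fin (D j))) (EuclideanSpace.single i 1) i
        = (w j : 𝕜) - (W j ((S - S') (V j (EuclideanSpace.single i 1)))) i := by
      intro i
      have h2 : W j ((S - S') (V j (EuclideanSpace.single i 1)))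
          = W j (S (V j (EuclideanSpace.single i 1)))
            - W j (S' (V j (EuclideanSpace.single i 1))) := by
        rw [sub_apply, map_sub]
      rw [h2, PiLp.sub_apply, hWSV j i]
      simp
    rw [Finset.sum_congr rfl fun i _ => h1 i, Finset.sum_sub_distrib, Finset.sum_const,
      Finset.card_univ, Fintype.card_fin, nsmul_eq_mul]
    have h3 : ‖∑ i, (W j ((S - S') (V j (EuclideanSpace.single i 1)))) i‖ ≤ D j * w j / 4 := by
      calc _ ≤ ∑ i, ‖(W j ((S - S') (V j (EuclideanSpace.single i 1)))) i‖ := norm_sum_le _ _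
        _ ≤ ∑ _i : Fin (D j), w j / 4 := by
          refine Finset.sum_le_sum fun i _ => (hent j i (S - S')).trans ?_
          have := hw j
          calc K * w j * ‖S - S'‖ ≤ K * w j * (1 / (4 * K)) := by gcongr
            _ = w j / 4 := by field_simp
        _ = D j * w j / 4 := by
          rw [Finset.sum_const, Finset.card_univ, Fintype.card_fin, nsmul_eq_mul]; ring
    have h4 : ‖((D j : 𝕜) * (w j : 𝕜))‖ = D j * w j := by
      rw [norm_mul, RCLike.norm_natCast, RCLike.norm_ofReal, abs_of_pos (hw j)]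
    have h5 := norm_sub_norm_le ((D j : 𝕜) * (w j : 𝕜))
      (∑ i, (W j ((S - S') (V j (EuclideanSpace.single i 1)))) i)
    rw [h4] at h5
    linarith
  have := hD j
  rw [← hJ] at this
  linarith

end Pool.Agent.Work.MP_4336d9_an
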