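import Pool.Agent.Work.MP_4336d9_an.Blocks

/-! Norm bounds for the block operators. -/

open Finset
open scoped ENNReal

namespace Pool.Agent.Work.MP_4336d9_an

variable {𝕜 : Type*} [RCLike 𝕜] (U : ℝ≥0∞) [Fact (1 ≤ U)]

lemma le_of_rpow_le_mul {x A B u : ℝ} (hu : 0 < u) (hx : 0 ≤ x) (hA : 0 ≤ A) (hB : 0 ≤ B)
    (h : x ^ u ≤ B * A ^ u) : x ≤ B ^ (1 / u) * A := by
  have h1 := Real.rpow_le_rpow (Real.rpow_nonneg hx u) h (by positivity : 0 ≤ 1 / u)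
  rw [← Real.rpow_mul hx, mul_one_div_cancel hu.ne', Real.rpow_one,
    Real.mul_rpow hB (by positivity), ← Real.rpow_mul hA, mul_one_div_cancel hu.ne',
    Real.rpow_one] at h1
  exact h1

lemma toReal_pos' (hU : U ≠ ⊤) : 0 < U.toReal := by
  have h1 : (1 : ℝ≥0∞) ≤ U := Fact.out
  exact ENNReal.toReal_pos (by positivity) hU

lemma norm_JJ_le_of_two_le (hU : U ≠ ⊤) (hu : 2 ≤ U.toReal) {r D : ℕ} (hr : 0 < r)
    (a : EuclideanSpace 𝕜 (Fin D)) : ‖JJ U r D a‖ ≤ (Ku U.toReal) ^ (1 / U.toReal) * ‖a‖ := by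
  refine le_of_rpow_le_mul (toReal_pos' U hU) (norm_nonneg _) (norm_nonneg _) (Ku_pos _).le ?_
  rw [norm_JJ_rpow U hU]
  exact Mom_le_big hu hr _ (norm_nonneg _) (EuclideanSpace.norm_sq_eq a).symm

lemma norm_JJ_le_of_le_two (hU : U ≠ ⊤) (hu : U.toReal ≤ 2) {r D : ℕ} (hr : 0 < r)
    (a : EuclideanSpace 𝕜 (Fin D)) :
    ‖JJ U r D a‖ ≤ (r : ℝ) ^ (1 / U.toReal - 1 / 2) * ‖a‖ := by
  have hr' : (0 : ℝ) < r := by exact_mod_cast hr
  have hu0 := toReal_pos' U hU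
  have h := le_of_rpow_le_mul hu0 (norm_nonneg (JJ U r D a)) (norm_nonneg a)
    (B := (r : ℝ) ^ (1 - U.toReal / 2)) (by positivity) (by
      rw [norm_JJ_rpow U hU]
      exact Mom_le_small hu0 hu hr _ (norm_nonneg _) (EuclideanSpace.norm_sq_eq a).symm)
  rw [← Real.rpow_mul hr'.le] at h
  have h2 : (1 - U.toReal / 2) * (1 / U.toReal) = 1 / U.toReal - 1 / 2 := by field_simp
  rwa [h2] at h

omit [Fact (1 ≤ U)] in
lemma one_lt_toReal (hU1 : 1 < U) (hU : U ≠ ⊤) : 1 < U.toReal := by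
  have := (ENNReal.toReal_lt_toReal ENNReal.one_ne_top hU).2 hU1
  simpa using this

lemma conj_pos (hU1 : 1 < U) (hU : U ≠ ⊤) : 0 < U.toReal.conjExponent :=
  (Real.HolderConjugate.conjExponent (one_lt_toReal U hU1 hU)).symm.pos

lemma norm_PP_le_aux (hU1 : 1 < U) (hU : U ≠ ⊤) {r D : ℕ}
    (x : PiLp U (fun _ : Om r D => 𝕜)) {B : ℝ} (hB : 0 ≤ B)
    (h : Mom (U.toReal.conjExponent) r D (fun i => (starRingEnd 𝕜) (PP U r D x i))
      ≤ B * ‖PP U r D x‖ ^ U.toReal.conjExponent) :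
    ‖PP U r D x‖ ≤ B ^ (1 / U.toReal.conjExponent) * ‖x‖ := by
  have hv := conj_pos U hU1 hU
  have h1 := norm_sq_PP_le U hU1 hU x
  have h2 : (Mom (U.toReal.conjExponent) r D (fun i => (starRingEnd 𝕜) (PP U r D x i)))
      ^ (1 / U.toReal.conjExponent) ≤ B ^ (1 / U.toReal.conjExponent) * ‖PP U r D x‖ := by
    have h3 := Real.rpow_le_rpow (Mom_nonneg _ _ _ _) h (by positivity :
      0 ≤ 1 / U.toReal.conjExponent)
    rw [Real.mul_rpow hB (by positivity), ← Real.rpow_mul (norm_nonneg _),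
      mul_one_div_cancel hv.ne', Real.rpow_one] at h3
    exact h3
  have h4 : ‖PP U r D x‖ ^ 2 ≤ ‖x‖ * (B ^ (1 / U.toReal.conjExponent) * ‖PP U r D x‖) :=
    h1.trans (by gcongr)
  rcases (norm_nonneg (PP U r D x)).eq_or_lt with h0 | hpos
  · rw [← h0]; positivity
  · nlinarith

lemma sum_norm_sq_conj {D : ℕ} (a : EuclideanSpace 𝕜 (Fin D)) :
    ∑ i, ‖(starRingEnd 𝕜) (a i)‖ ^ 2 = ‖a‖ ^ 2 := by
  rw [EuclideanSpace.norm_sq_eq]
  exact Finset.sum_congr rfl fun i _ => by rw [RCLike.norm_conj]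

lemma conj_le_two (hU1 : 1 < U) (hU : U ≠ ⊤) (hu : 2 ≤ U.toReal) :
    U.toReal.conjExponent ≤ 2 := by
  have := one_lt_toReal U hU1 hU
  unfold Real.conjExponent
  rw [div_le_iff₀ (by linarith)]
  linarith

lemma two_le_conj (hU1 : 1 < U) (hU : U ≠ ⊤) (hu : U.toReal ≤ 2) :
    2 ≤ U.toReal.conjExponent := by
  have := one_lt_toReal U hU1 hU
  unfold Real.conjExponent
  rw [le_div_iff₀ (by linarith)]
  linarith

lemma one_div_conj (hU1 : 1 < U) (hU : U ≠ ⊤) :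
    1 / U.toReal.conjExponent = 1 - 1 / U.toReal := by
  have := (Real.HolderConjugate.conjExponent (one_lt_toReal U hU1 hU)).inv_add_inv_eq_one
  rw [one_div, one_div]; linarith

lemma norm_PP_le_of_two_le (hU1 : 1 < U) (hU : U ≠ ⊤) (hu : 2 ≤ U.toReal) {r D : ℕ} (hr : 0 < r)
    (x : PiLp U (fun _ : Om r D => 𝕜)) :
    ‖PP U r D x‖ ≤ (r : ℝ) ^ (1 / 2 - 1 / U.toReal) * ‖x‖ := by
  have hr' : (0 : ℝ) < r := by exact_mod_cast hr
  have hv := conj_pos U hU1 hU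
  have h := norm_PP_le_aux U hU1 hU x (B := (r : ℝ) ^ (1 - U.toReal.conjExponent / 2))
    (by positivity)
    (Mom_le_small hv (conj_le_two U hU1 hU hu) hr _ (norm_nonneg _) (sum_norm_sq_conj _))
  rw [← Real.rpow_mul hr'.le] at h
  have h2 : (1 - U.toReal.conjExponent / 2) * (1 / U.toReal.conjExponent)
      = 1 / 2 - 1 / U.toReal := by
    have h3 : (1 - U.toReal.conjExponent / 2) * (1 / U.toReal.conjExponent)
      = 1 / U.toReal.conjExponent - 1 / 2 := by field_simp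
    rw [h3, one_div_conj U hU1 hU]; ring
  rwa [h2] at h

lemma norm_PP_le_of_le_two (hU1 : 1 < U) (hU : U ≠ ⊤) (hu : U.toReal ≤ 2) {r D : ℕ} (hr : 0 < r)
    (x : PiLp U (fun _ : Om r D => 𝕜)) :
    ‖PP U r D x‖ ≤ (Ku U.toReal.conjExponent) ^ (1 / U.toReal.conjExponent) * ‖x‖ :=
  norm_PP_le_aux U hU1 hU x (Ku_pos _).le
    (Mom_le_big (two_le_conj U hU1 hU hu) hr _ (norm_nonneg _) (sum_norm_sq_conj _))

/-- A common constant. -/
noncomputable def CJ (u : ℝ) : ℝ := max 1 ((Ku u) ^ (1 / u))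

lemma one_le_CJ (u : ℝ) : 1 ≤ CJ u := le_max_left _ _

lemma norm_JJ_le_of_two_le' (hU : U ≠ ⊤) (hu : 2 ≤ U.toReal) {r D : ℕ} (hr : 0 < r)
    (a : EuclideanSpace 𝕜 (Fin D)) : ‖JJ U r D a‖ ≤ CJ U.toReal * ‖a‖ :=
  (norm_JJ_le_of_two_le U hU hu hr a).trans (by
    have : (Ku U.toReal) ^ (1 / U.toReal) ≤ CJ U.toReal := le_max_right _ _
    gcongr)

lemma norm_JJ_one_le (hU : U ≠ ⊤) {D : ℕ} (a : EuclideanSpace 𝕜 (Fin D)) :
    ‖JJ U 1 D a‖ ≤ CJ U.toReal * ‖a‖ := by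
  rcases le_total 2 U.toReal with h | h
  · exact norm_JJ_le_of_two_le' U hU h one_pos a
  · have h1 := norm_JJ_le_of_le_two U hU h one_pos a
    rw [Nat.cast_one, Real.one_rpow, one_mul] at h1
    exact h1.trans (by nlinarith [one_le_CJ U.toReal, norm_nonneg a])

lemma norm_PP_le_of_le_two' (hU1 : 1 < U) (hU : U ≠ ⊤) (hu : U.toReal ≤ 2) {r D : ℕ} (hr : 0 < r)
    (x : PiLp U (fun _ : Om r D => 𝕜)) :
    ‖PP U r D x‖ ≤ CJ U.toReal.conjExponent * ‖x‖ :=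
  (norm_PP_le_of_le_two U hU1 hU hu hr x).trans (by
    have : (Ku U.toReal.conjExponent) ^ (1 / U.toReal.conjExponent)
      ≤ CJ U.toReal.conjExponent := le_max_right _ _
    gcongr)

lemma norm_PP_one_le (hU1 : 1 < U) (hU : U ≠ ⊤) {D : ℕ} (x : PiLp U (fun _ : Om 1 D => 𝕜)) :
    ‖PP U 1 D x‖ ≤ CJ U.toReal.conjExponent * ‖x‖ := by
  rcases le_total 2 U.toReal with h | h
  · have h1 := norm_PP_le_of_two_le U hU1 hU h one_pos x
    rw [Nat.cast_one, Real.one_rpow, one_mul] at h1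
    exact h1.trans (by nlinarith [one_le_CJ U.toReal.conjExponent, norm_nonneg x])
  · exact norm_PP_le_of_le_two' U hU1 hU h one_pos x

end Pool.Agent.Work.MP_4336d9_an
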