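import Mathlib

/-! Finitely strictly singular operators and the closed ideal generated by one operator. -/

open scoped ENNReal

namespace Pool.Agent.Work.MP_4336d9_an

/-- An operator `T : X → Y` is finitely strictly singular: for every `ε > 0` there is `n` such that
every subspace `E` of `X` of dimension at least `n` contains a vector `x ≠ 0` with
`‖T x‖ ≤ ε * ‖x‖`. -/
def IsFSS {𝕜 X Y : Type*} [RCLike 𝕜] [NormedAddCommGroup X] [NormedSpace 𝕜 X]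
    [NormedAddCommGroup Y] [NormedSpace 𝕜 Y] (T : X →L[𝕜] Y) : Prop :=
  ∀ ε : ℝ, 0 < ε → ∃ n : ℕ, ∀ E : Submodule 𝕜 X, (n : Cardinal) ≤ Module.rank 𝕜 E →
    ∃ x ∈ E, x ≠ 0 ∧ ‖T x‖ ≤ ε * ‖x‖

/-- The set of the finitely strictly singular operators from `X` to `Y`. -/
def FSS (𝕜 X Y : Type*) [RCLike 𝕜] [NormedAddCommGroup X] [NormedSpace 𝕜 X]
    [NormedAddCommGroup Y] [NormedSpace 𝕜 Y] : Set (X →L[𝕜] Y) := {T | IsFSS T}

/-- The product `A T B`. -/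
def sandwich {𝕜 X Y : Type*} [RCLike 𝕜] [NormedAddCommGroup X] [NormedSpace 𝕜 X]
    [NormedAddCommGroup Y] [NormedSpace 𝕜 Y] (A : Y →L[𝕜] Y) (T : X →L[𝕜] Y) (B : X →L[𝕜] X) :
    X →L[𝕜] Y :=
  A.comp (T.comp B)

/-- The set of the finite sums `∑ A i ∘ T ∘ B i`. -/
def finSums {𝕜 X Y : Type*} [RCLike 𝕜] [NormedAddCommGroup X] [NormedSpace 𝕜 X]
    [NormedAddCommGroup Y] [NormedSpace 𝕜 Y] (T : X →L[𝕜] Y) : Set (X →L[𝕜] Y) :=
  {S | ∃ (m : ℕ) (A : Fin m → (Y →L[𝕜] Y)) (B : Fin m → (X →L[𝕜] X)),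
    S = ∑ i, sandwich (A i) T (B i)}

/-- The closed ideal `J^T` generated by one operator `T : X → Y`: the operator-norm closure of the
set of the finite sums `∑ A i ∘ T ∘ B i`. -/
def closedIdeal {𝕜 X Y : Type*} [RCLike 𝕜] [NormedAddCommGroup X] [NormedSpace 𝕜 X]
    [NormedAddCommGroup Y] [NormedSpace 𝕜 Y] (T : X →L[𝕜] Y) : Set (X →L[𝕜] Y) :=
  closure (finSums T)

/-- The Banach space `ℓ_p` of sequences of scalars: Mathlib's `lp` with index set `ℕ`. -/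
def ell (𝕜 : Type) [RCLike 𝕜] (p : ℝ≥0∞) : Type := lp (fun _ : ℕ => 𝕜) p

/-- The norm of `ℓ_p` is Mathlib's. -/
noncomputable instance ellNormed (𝕜 : Type) [RCLike 𝕜] (p : ℝ≥0∞) [Fact (1 ≤ p)] :
    NormedAddCommGroup (ell 𝕜 p) :=
  (lp.normedAddCommGroup : NormedAddCommGroup (lp (fun _ : ℕ => 𝕜) p))

/-- The scalar multiplication of `ℓ_p` is Mathlib's. -/
noncomputable instance ellNormedSpace (𝕜 : Type) [RCLike 𝕜] (p : ℝ≥0∞) [Fact (1 ≤ p)] :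
    NormedSpace 𝕜 (ell 𝕜 p) :=
  (lp.instNormedSpace : NormedSpace 𝕜 (lp (fun _ : ℕ => 𝕜) p))

end Pool.Agent.Work.MP_4336d9_an
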