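import Pool.Agent.Work.MP_4336d9_an.Defs

/-! The trace of an operator on a finite-dimensional Hilbert space which is small on a vector of
every `n`-dimensional subspace. -/

open scoped InnerProductSpace

namespace Pool.Agent.Work.MP_4336d9_an

variable {𝕜 : Type*} [RCLike 𝕜] {H : Type*} [NormedAddCommGroup H] [InnerProductSpace 𝕜 H]
  [FiniteDimensional 𝕜 H]

/-- There is an orthonormal basis whose image is orthogonal. -/
lemma exists_sv_basis {D : ℕ} (hD : Module.finrank 𝕜 H = D) (M : H →ₗ[𝕜] H) :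
    ∃ e : OrthonormalBasis (Fin D) 𝕜 H, ∀ i j, i ≠ j → ⟪M (e i), M (e j)⟫_𝕜 = 0 := by
  have hS : (LinearMap.adjoint M ∘ₗ M).IsSymmetric := M.isSymmetric_adjoint_comp_self
  refine ⟨hS.eigenvectorBasis hD, fun i j hij => ?_⟩
  have h1 : ⟪M (hS.eigenvectorBasis hD i), M (hS.eigenvectorBasis hD j)⟫_𝕜
      = ⟪(LinearMap.adjoint M ∘ₗ M) (hS.eigenvectorBasis hD i), hS.eigenvectorBasis hD j⟫_𝕜 := by
    rw [LinearMap.comp_apply, LinearMap.adjoint_inner_left]
  rw [h1, hS.apply_eigenvectorBasis hD i, inner_smul_left,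
    (hS.eigenvectorBasis hD).inner_eq_zero hij, mul_zero]

omit [FiniteDimensional 𝕜 H] in
lemma norm_sq_sum_orthogonal {ι : Type*} [Fintype ι] (v : ι → H)
    (hv : ∀ i j, i ≠ j → ⟪v i, v j⟫_𝕜 = 0) (c : ι → 𝕜) :
    ‖∑ i, c i • v i‖ ^ 2 = ∑ i, ‖c i‖ ^ 2 * ‖v i‖ ^ 2 := by
  classical
  have h : ((‖∑ i, c i • v i‖ ^ 2 : ℝ) : 𝕜) = ((∑ i, ‖c i‖ ^ 2 * ‖v i‖ ^ 2 : ℝ) : 𝕜) := by
    have h0 : ((‖∑ i, c i • v i‖ ^ 2 : ℝ) : 𝕜) = ⟪∑ i, c i • v i, ∑ i, c i • v i⟫_𝕜 := by
      rw [inner_self_eq_norm_sq_to_K]; push_cast; rfl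
    rw [h0, sum_inner]
    push_cast
    refine Finset.sum_congr rfl fun i _ => ?_
    rw [inner_sum, Finset.sum_eq_single i]
    · rw [inner_smul_left, inner_smul_right, inner_self_eq_norm_sq_to_K, ← mul_assoc,
        RCLike.conj_mul]
    · intro j _ hj
      rw [inner_smul_left, inner_smul_right, hv i j (Ne.symm hj)]; simp
    · intro h; exact absurd (Finset.mem_univ i) h
  exact_mod_cast h

lemma trace_bound {D : ℕ} (hD : Module.finrank 𝕜 H = D) (M : H →ₗ[𝕜] H) {η b : ℝ}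
    (hη : 0 ≤ η) (hb : 0 ≤ b) {n : ℕ} (hM : Prof M η n) (hMb : ∀ x, ‖M x‖ ≤ b * ‖x‖) :
    ‖LinearMap.trace 𝕜 H M‖ ≤ D * η + n * b := by
  classical
  obtain ⟨e, he⟩ := exists_sv_basis hD M
  set Bd : Finset (Fin D) := Finset.univ.filter (fun i => η < ‖M (e i)‖) with hBd
  have hcard : Bd.card ≤ n := by
    by_contra hcon
    push Not at hcon
    obtain ⟨s, hs, hsn⟩ := Finset.exists_subset_card_eq hcon.le
    have eq : Fin n ≃ s := (Fintype.equivFinOfCardEq (by simpa using hsn)).symm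
    set v : Fin n → H := fun k => e (eq k) with hv
    obtain ⟨c, hc0, hc⟩ := hM (Fintype.linearCombination 𝕜 v)
    rw [Fintype.linearCombination_apply, map_sum] at hc
    have h1 : ‖∑ i, M (c i • v i)‖ ^ 2 ≤ (η * ‖∑ i, c i • v i‖) ^ 2 := by
      gcongr
    rw [mul_pow, norm_sq_sum_orthogonal (𝕜 := 𝕜) v (fun i j hij => ?_) c] at h1
    · have h2 : ∑ i, M (c i • v i) = ∑ i, c i • M (v i) := by simp
      rw [h2, norm_sq_sum_orthogonal (𝕜 := 𝕜) (fun i => M (v i)) (fun i j hij => ?_) c] at h1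
      · have hvn : ∀ i, ‖v i‖ = 1 := fun i => e.norm_eq_one _
        simp only [hvn, one_pow, mul_one] at h1
        rw [Finset.mul_sum] at h1
        obtain ⟨k, hk⟩ : ∃ k, c k ≠ 0 := by
          by_contra hcc
          push Not at hcc
          exact hc0 (funext hcc)
        refine absurd h1 (not_le.2 (Finset.sum_lt_sum (fun i _ => ?_) ⟨k, Finset.mem_univ k, ?_⟩))
        · have hi : η < ‖M (v i)‖ := by
            have := hs (eq i).2
            rw [hBd, Finset.mem_filter] at this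
            exact this.2
          have : η ^ 2 ≤ ‖M (v i)‖ ^ 2 := by gcongr
          nlinarith [sq_nonneg ‖c i‖]
        · have hi : η < ‖M (v k)‖ := by
            have := hs (eq k).2
            rw [hBd, Finset.mem_filter] at this
            exact this.2
          have h3 : η ^ 2 < ‖M (v k)‖ ^ 2 := by gcongr
          have h4 : 0 < ‖c k‖ ^ 2 := by positivity
          nlinarith
      · refine he _ _ ?_
        intro hh
        exact hij (eq.injective (Subtype.ext hh))
    · refine e.inner_eq_zero ?_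
      intro hh
      exact hij (eq.injective (Subtype.ext hh))
  rw [LinearMap.trace_eq_sum_inner M e]
  have hterm : ∀ i, ‖⟪e i, M (e i)⟫_𝕜‖ ≤ η + (if i ∈ Bd then b else 0) := by
    intro i
    have h1 : ‖⟪e i, M (e i)⟫_𝕜‖ ≤ ‖M (e i)‖ := by
      have := norm_inner_le_norm (𝕜 := 𝕜) (e i) (M (e i))
      rwa [e.norm_eq_one, one_mul] at this
    split_ifs with hi
    · have h2 := hMb (e i)
      rw [e.norm_eq_one, mul_one] at h2
      linarith
    · have h2 : ‖M (e i)‖ ≤ η := by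
        by_contra hcon
        push Not at hcon
        exact hi (by rw [hBd, Finset.mem_filter]; exact ⟨Finset.mem_univ _, hcon⟩)
      linarith
  calc ‖∑ i, ⟪e i, M (e i)⟫_𝕜‖ ≤ ∑ i, ‖⟪e i, M (e i)⟫_𝕜‖ := norm_sum_le _ _
    _ ≤ ∑ i, (η + (if i ∈ Bd then b else 0)) := Finset.sum_le_sum fun i _ => hterm i
    _ = D * η + Bd.card * b := by
        rw [Finset.sum_add_distrib, Finset.sum_const, Finset.card_univ, Fintype.card_fin,
          nsmul_eq_mul, ← Finset.sum_filter, Finset.filter_mem_eq_inter, Finset.univ_inter,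
          Finset.sum_const, nsmul_eq_mul]
    _ ≤ D * η + n * b := by gcongr

end Pool.Agent.Work.MP_4336d9_an
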